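import Pool.Agent.R652.SR.Defs
import Pool.Agent.Helper79.CFG

/-!
# Project SR, piece A1 (helper208): triple construction
-/

set_option autoImplicit false

namespace Pool.Agent.R652.SR

namespace A1x

open Pool.Agent.Helper79.CFG

variable {A : Type} (M : SPDA A)

/-- nonterminals -/
abbrev NTm : Type := Option (M.Q × M.G × M.Q)

/-- strings of triples which connect two states along a pushdown word -/
def chains : M.Q → List M.G → M.Q → Set (List (Symbol M.Ru (NTm M)))
  | q, [], p => {c | c = [] ∧ q = p}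
  | q, Z :: s, p =>
    {c | ∃ q' c', c = Symbol.nonterminal (some (q, Z, q')) :: c' ∧ c' ∈ chains q' s p}

theorem chains_finite (s : List M.G) : ∀ q p : M.Q, (chains M q s p).Finite := by
  have := M.finQ
  induction s with
  | nil =>
    intro q p
    refine (Set.finite_singleton ([] : List (Symbol M.Ru (NTm M)))).subset ?_
    rintro c ⟨hc, _⟩
    exact hc
  | cons Z s ih =>
    intro q p
    have h : (⋃ q' : M.Q, (fun c' : List (Symbol M.Ru (NTm M)) =>
        Symbol.nonterminal (some (q, Z, q')) :: c') '' chains M q' s p).Finite :=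
      Set.finite_iUnion fun q' => (ih q' p).image _
    refine h.subset ?_
    rintro c ⟨q', c', rfl, hc'⟩
    exact Set.mem_iUnion.mpr ⟨q', c', hc', rfl⟩

theorem chains_append (s1 s2 : List M.G) : ∀ (q p : M.Q) (c : List (Symbol M.Ru (NTm M))),
    c ∈ chains M q (s1 ++ s2) p →
    ∃ c1 c2 p', c = c1 ++ c2 ∧ c1 ∈ chains M q s1 p' ∧ c2 ∈ chains M p' s2 p := by
  induction s1 with
  | nil =>
    intro q p c hc
    exact ⟨[], c, q, rfl, ⟨rfl, rfl⟩, hc⟩
  | cons Z s1 ih =>
    intro q p c hc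
    obtain ⟨q', c', rfl, hc'⟩ := hc
    obtain ⟨c1, c2, p', rfl, h1, h2⟩ := ih q' p c' hc'
    exact ⟨_ :: c1, c2, p', rfl, ⟨q', c1, rfl, h1⟩, h2⟩

/-- the rules -/
def rulesSet : Set (ContextFreeRule M.Ru (NTm M)) :=
  {ρ | ∃ f ∈ M.F, ρ = ⟨none, [Symbol.nonterminal (some (M.q0, M.Z0, f))]⟩} ∪
  {ρ | ∃ r p, ∃ c ∈ chains M (M.tgt r) (M.push r) p,
    ρ = ⟨some (M.src r, M.top r, p), Symbol.terminal r :: c⟩}

theorem rules_finite : (rulesSet M).Finite := by
  have := M.finQ
  have := M.finRu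
  refine Set.Finite.union ?_ ?_
  · have h : ((fun f : M.Q => (⟨none, [Symbol.nonterminal (some (M.q0, M.Z0, f))]⟩ :
        ContextFreeRule M.Ru (NTm M))) '' M.F).Finite := (Set.toFinite M.F).image _
    refine h.subset ?_
    rintro ρ ⟨f, hf, rfl⟩
    exact ⟨f, hf, rfl⟩
  · have h : (⋃ r : M.Ru, ⋃ p : M.Q, (fun c : List (Symbol M.Ru (NTm M)) =>
        (⟨some (M.src r, M.top r, p), Symbol.terminal r :: c⟩ :
          ContextFreeRule M.Ru (NTm M))) '' chains M (M.tgt r) (M.push r) p).Finite :=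
      Set.finite_iUnion fun r => Set.finite_iUnion fun p => (chains_finite M _ _ _).image _
    refine h.subset ?_
    rintro ρ ⟨r, p, c, hc, rfl⟩
    exact Set.mem_iUnion.mpr ⟨r, Set.mem_iUnion.mpr ⟨p, c, hc, rfl⟩⟩

/-- the grammar -/
noncomputable def gr : ContextFreeGrammar M.Ru where
  NT := NTm M
  initial := none
  rules := (rules_finite M).toFinset

/-- meaning of the nonterminals -/
def Sem : NTm M → Set (List M.Ru)
  | none => {μ | ∃ f ∈ M.F, M.Run μ [M.Z0] M.q0 [] f}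
  | some (q, Z, p) => {μ | M.Run μ [Z] q [] p}

theorem run_ext {μ : List M.Ru} {s s' : List M.G} {q q' : M.Q} (h : M.Run μ s q s' q')
    (x : List M.G) : M.Run μ (s ++ x) q (s' ++ x) q' := by
  induction h with
  | nil s q => exact SPDA.Run.nil _ _
  | cons r s _ ih =>
    refine SPDA.Run.cons r (s ++ x) ?_
    rw [← List.append_assoc]
    exact ih

theorem run_trans {μ ν : List M.Ru} {s s' s'' : List M.G} {q q' q'' : M.Q}
    (h : M.Run μ s q s' q') (k : M.Run ν s' q' s'' q'') : M.Run (μ ++ ν) s q s'' q'' := by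
  induction h with
  | nil s q => exact k
  | cons r s _ ih => exact SPDA.Run.cons r s (ih k)

theorem chain_sound (s : List M.G) : ∀ (q p : M.Q) (c : List (Symbol M.Ru (NTm M)))
    (μ : List M.Ru), c ∈ chains M q s p → Comp (Sem M) c μ → M.Run μ s q [] p := by
  induction s with
  | nil =>
    rintro q p c μ ⟨rfl, rfl⟩ h
    have h' : μ = [] := h
    subst h'
    exact SPDA.Run.nil _ _
  | cons Z s ih =>
    rintro q p c μ ⟨q', c', rfl, hc'⟩ h
    obtain ⟨μ1, μ2, rfl, h1, h2⟩ := h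
    have k1 : M.Run μ1 [Z] q [] q' := h1
    have k2 := run_ext M k1 s
    exact run_trans M k2 (ih q' p c' μ2 hc' h2)

theorem chain_complete {μ : List M.Ru} {s s' : List M.G} {q p : M.Q} (h : M.Run μ s q s' p)
    (hs : s' = []) : ∃ c ∈ chains M q s p, Comp (Gen (gr M)) c μ := by
  induction h with
  | nil s q =>
    subst hs
    exact ⟨[], ⟨rfl, rfl⟩, rfl⟩
  | cons r s _ ih =>
    obtain ⟨c, hc, hcomp⟩ := ih hs
    obtain ⟨c1, c2, p', rfl, h1, h2⟩ := chains_append M _ _ _ _ _ hc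
    obtain ⟨μ1, μ2, rfl, k1, k2⟩ :=
      (comp_append (N := NTm M) (Gen (gr M)) c1 c2 _).mp hcomp
    refine ⟨Symbol.nonterminal (some (M.src r, M.top r, p')) :: c2, ⟨p', c2, rfl, h2⟩, ?_⟩
    refine ⟨r :: μ1, μ2, rfl, ?_, k2⟩
    have hr : (⟨some (M.src r, M.top r, p'), Symbol.terminal r :: c1⟩ :
        ContextFreeRule M.Ru (gr M).NT) ∈ (gr M).rules :=
      (rules_finite M).mem_toFinset.mpr (Or.inr ⟨r, p', c1, h1, rfl⟩)
    exact gen_of_rule (gr M) _ hr (r :: μ1) ⟨μ1, rfl, k1⟩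

end A1x

open A1x Pool.Agent.Helper79.CFG in
theorem t_A1 : S_A1 := by
  intro A M
  refine ⟨gr M, ?_⟩
  ext μ
  refine language_eq (gr M) (Sem M) ?_ ?_ μ
  · intro ρ hρ w hw
    rcases (rules_finite M).mem_toFinset.mp hρ with ⟨f, hf, rfl⟩ | ⟨r, p, c, hc, rfl⟩
    · obtain ⟨w1, w2, rfl, h1, h2⟩ := hw
      have h2' : w2 = [] := h2
      subst h2'
      rw [List.append_nil]
      exact ⟨f, hf, h1⟩
    · obtain ⟨w', rfl, h1⟩ := hw
      have h2 := chain_sound M _ _ _ c w' hc h1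
      refine SPDA.Run.cons r [] ?_
      rw [List.append_nil]
      exact h2
  · rintro w ⟨f, hf, hw⟩
    obtain ⟨c, hc, hcomp⟩ := chain_complete M hw rfl
    obtain ⟨q', c', rfl, rfl, hq⟩ := hc
    subst hq
    have hr : (⟨none, [Symbol.nonterminal (some (M.q0, M.Z0, q'))]⟩ :
        ContextFreeRule M.Ru (gr M).NT) ∈ (gr M).rules :=
      (rules_finite M).mem_toFinset.mpr (Or.inl ⟨q', hf, rfl⟩)
    exact gen_of_rule (gr M) _ hr w hcomp

end Pool.Agent.R652.SR
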