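import Pool.Agent.R652.SR.Defs

set_option autoImplicit false

/-!
# Piece A2: the set of correctly split sequences is strict parallel right-linear (helper278)
-/

namespace Pool.Agent.R652.SR

namespace A2aux

open Classical in
/-- The grammar. -/
noncomputable def PP (U : Type) [Fintype U] (n : ℕ) (turn : Set U) (R : U → U → Prop) :
    PRLG (n + 1) U where
  N _ := Option U
  finN _ := inferInstance
  start := {X | ∃ r : Fin (n + 1) → U, X = (fun i => some (r i)) ∧
    ∀ j : Fin n, R (r j.castSucc) (r j.succ)}
  step i := ((Finset.univ : Finset U).filter (fun r => i ≠ 0 ∨ r ∉ turn)).image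
      (fun r => (some r, [r], none)) ∪
    ((Finset.univ : Finset U).filter (fun r => i ≠ 0 ∨ r ∉ turn)).image
      (fun r => (none, [r], none))
  fin i := ((Finset.univ : Finset U).filter (fun r => i ≠ 0 ∨ r ∈ turn)).image
      (fun r => (some r, [r])) ∪
    ((Finset.univ : Finset U).filter (fun r => i ≠ 0 ∨ r ∈ turn)).image
      (fun r => (none, [r]))

variable {U : Type} [Fintype U] {n : ℕ} {turn : Set U} {R : U → U → Prop}

theorem mem_step (i : Fin (n + 1)) (X Y : Option U) (x : List U) :
    (X, x, Y) ∈ (PP U n turn R).step i ↔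
      ∃ r, (i ≠ 0 ∨ r ∉ turn) ∧ (X = some r ∨ X = none) ∧ x = [r] ∧ Y = none := by
  unfold PP
  simp only [Finset.mem_union, Finset.mem_image, Finset.mem_filter, Finset.mem_univ, true_and,
    Prod.mk.injEq]
  constructor
  · rintro (⟨r, h1, h2, h3, h4⟩ | ⟨r, h1, h2, h3, h4⟩)
    · exact ⟨r, h1, Or.inl h2.symm, h3.symm, h4.symm⟩
    · exact ⟨r, h1, Or.inr h2.symm, h3.symm, h4.symm⟩
  · rintro ⟨r, h1, h2 | h2, h3, h4⟩
    · exact Or.inl ⟨r, h1, h2.symm, h3.symm, h4.symm⟩
    · exact Or.inr ⟨r, h1, h2.symm, h3.symm, h4.symm⟩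

theorem mem_fin (i : Fin (n + 1)) (X : Option U) (x : List U) :
    (X, x) ∈ (PP U n turn R).fin i ↔
      ∃ r, (i ≠ 0 ∨ r ∈ turn) ∧ (X = some r ∨ X = none) ∧ x = [r] := by
  unfold PP
  simp only [Finset.mem_union, Finset.mem_image, Finset.mem_filter, Finset.mem_univ, true_and,
    Prod.mk.injEq]
  constructor
  · rintro (⟨r, h1, h2, h3⟩ | ⟨r, h1, h2, h3⟩)
    · exact ⟨r, h1, Or.inl h2.symm, h3.symm⟩
    · exact ⟨r, h1, Or.inr h2.symm, h3.symm⟩
  · rintro ⟨r, h1, h2 | h2, h3⟩
    · exact Or.inl ⟨r, h1, h2.symm, h3.symm⟩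
    · exact Or.inr ⟨r, h1, h2.symm, h3.symm⟩

/-- The condition on the blocks. -/
def Good (turn : Set U) (i : Fin (n + 1)) (u : List U) : Prop :=
  i = 0 → ∃ t r, u = t ++ [r] ∧ r ∈ turn ∧ ∀ s ∈ t, s ∉ turn

theorem of_der (i : Fin (n + 1)) (t : ℕ) (X : (PP U n turn R).N i) (u : List U)
    (h : (PP U n turn R).Der i t X u) :
    u.length = t ∧ u ≠ [] ∧ Good turn i u ∧
      ∀ r, X = (some r : Option U) → u.head? = some r := by
  induction h with
  | fin X x h =>
    obtain ⟨r, h1, h2, h3⟩ := (mem_fin i X x).1 h
    subst h3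
    refine ⟨rfl, by simp, ?_, ?_⟩
    · intro hi
      refine ⟨[], r, rfl, ?_, by simp⟩
      rcases h1 with h1 | h1
      · exact absurd hi h1
      · exact h1
    · intro r' hr'
      rcases h2 with h2 | h2
      · have : r = r' := Option.some.inj (h2.symm.trans hr')
        simp [this]
      · rw [h2] at hr'
        cases hr'
  | step X x Y h hd ih =>
    obtain ⟨r, h1, h2, h3, h4⟩ := (mem_step i X Y x).1 h
    subst h3
    obtain ⟨ih1, ih2, ih3, -⟩ := ih
    refine ⟨by simp [ih1], by simp, ?_, ?_⟩
    · intro hi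
      obtain ⟨t', r', e1, e2, e3⟩ := ih3 hi
      refine ⟨r :: t', r', by simp [e1], e2, ?_⟩
      intro s hs
      rcases List.mem_cons.1 hs with rfl | hs
      · rcases h1 with h1 | h1
        · exact absurd hi h1
        · exact h1
      · exact e3 s hs
    · intro r' hr'
      rcases h2 with h2 | h2
      · have : r = r' := Option.some.inj (h2.symm.trans hr')
        simp [this]
      · rw [h2] at hr'
        cases hr'

theorem der_of (i : Fin (n + 1)) (u : List U) : ∀ (X : Option U), u ≠ [] → Good turn i u →
    (∀ r, X = some r → u.head? = some r) → (PP U n turn R).Der i u.length X u := by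
  induction u with
  | nil => intro X h; exact absurd rfl h
  | cons r v ih =>
    intro X _ hg hX
    have hXr : X = some r ∨ X = none := by
      cases X with
      | none => exact Or.inr rfl
      | some r' =>
        have := hX r' rfl
        simp at this
        exact Or.inl (by rw [this])
    by_cases hv : v = []
    · subst hv
      refine PRLG.Der.fin (P := PP U n turn R) (i := i) X [r]
        ((mem_fin i X [r]).2 ⟨r, ?_, hXr, rfl⟩)
      by_cases hi : i = 0
      · obtain ⟨t, r', e1, e2, -⟩ := hg hi
        right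
        have : t = [] := by
          have := congrArg List.length e1
          simp at this
          exact this
        subst this
        simp at e1
        rw [e1]
        exact e2
      · exact Or.inl hi
    · have hkey : (i ≠ 0 ∨ r ∉ turn) ∧ Good turn i v := by
        by_cases hi : i = 0
        · obtain ⟨t, r', e1, e2, e3⟩ := hg hi
          cases t with
          | nil =>
            simp at e1
            exact absurd e1.2 hv
          | cons a t' =>
            simp at e1
            obtain ⟨rfl, e1⟩ := e1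
            exact ⟨Or.inr (e3 _ (by simp)), fun _ => ⟨t', r', e1, e2,
              fun s hs => e3 s (List.mem_cons_of_mem _ hs)⟩⟩
        · exact ⟨Or.inl hi, fun h => absurd h hi⟩
      have hd := ih none hv hkey.2 (by intro r' h; cases h)
      have := PRLG.Der.step (P := PP U n turn R) (i := i) X [r] none
        ((mem_step i X none [r]).2 ⟨r, hkey.1, hXr, rfl, rfl⟩) hd
      exact this

end A2aux

open A2aux

theorem t_A2 : S_A2 := by
  intro U _ n turn R
  refine ⟨PP U n turn R, ⟨?_, ?_⟩, ?_⟩
  · rintro i ⟨X, x, Y⟩ hp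
    obtain ⟨r, -, -, h3, -⟩ := (mem_step i X Y x).1 hp
    simp [h3]
  · rintro i ⟨X, x⟩ hp
    obtain ⟨r, -, -, h3⟩ := (mem_fin i X x).1 hp
    simp [h3]
  · ext w
    constructor
    · rintro ⟨X, ⟨r, hX, hR⟩, t, u, hd, hw⟩
      have h : ∀ i, (u i).length = t ∧ u i ≠ [] ∧ Good turn i (u i) ∧
          ∀ r, X i = some r → (u i).head? = some r := fun i => of_der i t (X i) (u i) (hd i)
      have hh : ∀ i, (u i).head? = some (r i) := fun i => (h i).2.2.2 (r i) (by rw [hX])
      refine ⟨t, u, ?_, fun j => (h j).1, hw, (h 0).2.2.1 rfl, fun j =>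
        ⟨r j.castSucc, r j.succ, hh _, hh _, hR j⟩⟩
      rw [← (h 0).1]
      exact List.length_pos_iff.2 (h 0).2.1
    · rintro ⟨k, u, hk, hlen, hw, h0, hR⟩
      have hne : ∀ i, u i ≠ [] := fun i hi => by
        have := hlen i
        rw [hi] at this
        simp at this
        omega
      have hex : ∀ i, ∃ r, (u i).head? = some r := fun i => by
        cases hu : u i with
        | nil => exact absurd hu (hne i)
        | cons a l => exact ⟨a, rfl⟩
      choose r hr using hex
      refine ⟨fun i => some (r i), ⟨r, rfl, fun j => ?_⟩, k, u, fun i => ?_, hw⟩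
      · obtain ⟨r', s', h1, h2, h3⟩ := hR j
        rw [hr] at h1 h2
        rw [Option.some.inj h1, Option.some.inj h2]
        exact h3
      · have := der_of (R := R) (turn := turn) i (u i) (some (r i)) (hne i)
          (fun hi => by subst hi; exact h0) (fun r' hr' => by rw [hr, hr'])
        rw [hlen i] at this
        exact this

end Pool.Agent.R652.SR
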