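import Pool.Agent.R652.SR.Defs
import Pool.Agent.Helper79.Comap

set_option autoImplicit false

/-!
# MP_a569f2_lc, piece B1: strictness can be assumed
-/

namespace Pool.Agent.R652.SR

namespace B1

open Classical in
/-- the words written by the productions -/
noncomputable def Wd {m : ℕ} {T : Type} (P : PRLG m T) : Finset (List T) :=
  (Finset.univ.biUnion fun i => (P.step i).image (fun p => p.2.1)) ∪
    (Finset.univ.biUnion fun i => (P.fin i).image (fun p => p.2))

theorem mem_step {m : ℕ} {T : Type} (P : PRLG m T) (i : Fin m) (p : P.N i × List T × P.N i)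
    (hp : p ∈ P.step i) : p.2.1 ∈ Wd P := by
  classical
  unfold Wd
  rw [Finset.mem_union]
  left
  rw [Finset.mem_biUnion]
  exact ⟨i, Finset.mem_univ i, Finset.mem_image_of_mem (fun p => p.2.1) hp⟩

theorem mem_fin {m : ℕ} {T : Type} (P : PRLG m T) (i : Fin m) (p : P.N i × List T)
    (hp : p ∈ P.fin i) : p.2 ∈ Wd P := by
  classical
  unfold Wd
  rw [Finset.mem_union]
  right
  rw [Finset.mem_biUnion]
  exact ⟨i, Finset.mem_univ i, Finset.mem_image_of_mem (fun p => p.2) hp⟩

/-- the new terminal alphabet -/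
abbrev DD {m : ℕ} {T : Type} (P : PRLG m T) : Type := {x : List T // x ∈ Wd P}

open Classical in
/-- the strict grammar -/
noncomputable def PP {m : ℕ} {T : Type} (P : PRLG m T) : PRLG m (DD P) where
  N := P.N
  finN := P.finN
  start := P.start
  step i := (P.step i).attach.image (fun p => (p.1.1, [⟨p.1.2.1, mem_step P i p.1 p.2⟩], p.1.2.2))
  fin i := (P.fin i).attach.image (fun p => (p.1.1, [⟨p.1.2, mem_fin P i p.1 p.2⟩]))

theorem mem_PPstep {m : ℕ} {T : Type} (P : PRLG m T) (i : Fin m)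
    (p : P.N i × List (DD P) × P.N i) : p ∈ (PP P).step i ↔
      ∃ q : {q // q ∈ P.step i}, (q.1.1, [⟨q.1.2.1, mem_step P i q.1 q.2⟩], q.1.2.2) = p := by
  classical
  refine Finset.mem_image.trans ⟨?_, ?_⟩
  · rintro ⟨q, -, h⟩
    exact ⟨q, h⟩
  · rintro ⟨q, h⟩
    exact ⟨q, Finset.mem_attach _ _, h⟩

theorem mem_PPfin {m : ℕ} {T : Type} (P : PRLG m T) (i : Fin m)
    (p : P.N i × List (DD P)) : p ∈ (PP P).fin i ↔
      ∃ q : {q // q ∈ P.fin i}, (q.1.1, [⟨q.1.2, mem_fin P i q.1 q.2⟩]) = p := by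
  classical
  refine Finset.mem_image.trans ⟨?_, ?_⟩
  · rintro ⟨q, -, h⟩
    exact ⟨q, h⟩
  · rintro ⟨q, h⟩
    exact ⟨q, Finset.mem_attach _ _, h⟩

theorem strict {m : ℕ} {T : Type} (P : PRLG m T) : (PP P).Strict := by
  constructor
  · intro i p hp
    obtain ⟨q, rfl⟩ := (mem_PPstep P i p).1 hp
    rfl
  · intro i p hp
    obtain ⟨q, rfl⟩ := (mem_PPfin P i p).1 hp
    rfl

theorem der_of {m : ℕ} {T : Type} (P : PRLG m T) (i : Fin m) {t : ℕ} {X : (PP P).N i}
    {u : List (DD P)} (h : (PP P).Der i t X u) : P.Der i t X (u.flatMap Subtype.val) := by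
  induction h with
  | fin X x hx =>
    obtain ⟨⟨⟨Y, y⟩, hy⟩, he⟩ := (mem_PPfin P i (X, x)).1 hx
    simp only [Prod.mk.injEq] at he
    obtain ⟨rfl, rfl⟩ := he
    simp only [List.flatMap_cons, List.flatMap_nil, List.append_nil]
    exact PRLG.Der.fin _ _ hy
  | step X x Y hx _ ih =>
    obtain ⟨⟨⟨X', y, Y'⟩, hy⟩, he⟩ := (mem_PPstep P i (X, x, Y)).1 hx
    simp only [Prod.mk.injEq] at he
    obtain ⟨rfl, rfl, rfl⟩ := he
    simp only [List.flatMap_append, List.flatMap_cons, List.flatMap_nil, List.append_nil]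
    exact PRLG.Der.step _ _ _ hy ih

theorem der_to {m : ℕ} {T : Type} (P : PRLG m T) (i : Fin m) {t : ℕ} {X : P.N i}
    {u : List T} (h : P.Der i t X u) :
    ∃ u' : List (DD P), (PP P).Der i t X u' ∧ u = u'.flatMap Subtype.val := by
  induction h with
  | fin X x hx =>
    refine ⟨[⟨x, mem_fin P i (X, x) hx⟩], ?_, by simp⟩
    exact PRLG.Der.fin (P := PP P) (i := i) X _ ((mem_PPfin P i _).2 ⟨⟨(X, x), hx⟩, rfl⟩)
  | step X x Y hx _ ih =>
    obtain ⟨u', h1, h2⟩ := ih
    refine ⟨[⟨x, mem_step P i (X, x, Y) hx⟩] ++ u', ?_, by simp [h2]⟩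
    exact PRLG.Der.step (P := PP P) (i := i) X _ Y
      ((mem_PPstep P i _).2 ⟨⟨(X, x, Y), hx⟩, rfl⟩) h1

theorem flat {m : ℕ} {S T : Type} (f : S → List T) (u : Fin m → List S) :
    (List.ofFn u).flatten.flatMap f = (List.ofFn fun i => (u i).flatMap f).flatten := by
  have h1 : ∀ L : List (List S), L.flatten.flatMap f = (L.map fun x => x.flatMap f).flatten := by
    intro L
    induction L with
    | nil => rfl
    | cons a L ih => rw [List.flatten_cons, List.flatMap_append, ih, List.map_cons,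
        List.flatten_cons]
  rw [h1, List.map_ofFn]
  rfl

theorem lang_iff {m : ℕ} {T : Type} (P : PRLG m T) (v : List T) :
    v ∈ P.lang ↔ ∃ v' ∈ (PP P).lang, v = v'.flatMap Subtype.val := by
  constructor
  · rintro ⟨X, hX, t, u, hu, rfl⟩
    choose u' h1 h2 using fun i => der_to P i (hu i)
    refine ⟨(List.ofFn u').flatten, ⟨X, hX, t, u', h1, rfl⟩, ?_⟩
    rw [flat]
    congr 2
    funext i
    exact h2 i
  · rintro ⟨v', ⟨X, hX, t, u, hu, rfl⟩, rfl⟩
    exact ⟨X, hX, t, _, fun i => der_of P i (hu i), flat _ _⟩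

/-- the one-state automaton accepting everything -/
def allD (A : Type) : DFA A Unit where
  step _ _ := ()
  start := ()
  accept := Set.univ

end B1

theorem t_B1 : S_B1 := by
  classical
  rintro A m L ⟨D, _, K, P, h, ⟨g, hg⟩, hL⟩
  refine ⟨B1.DD P, inferInstance, {v | v.flatMap Subtype.val ∈ K}, B1.PP P,
    fun x => x.1.flatMap h, ?_, B1.strict P, ?_⟩
  · have h1 := Pool.Agent.Helper79.Trans.isContextFree_comap_inter
      (fun x : B1.DD P => x.1) (B1.allD (B1.DD P)) g
    have h2 : ({v | v.flatMap Subtype.val ∈ K} : Language (B1.DD P)) =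
        {w | w.flatMap (fun x : B1.DD P => x.1) ∈ g.language ∧
          w ∈ (B1.allD (B1.DD P)).accepts} := by
      ext v
      rw [hg]
      constructor
      · intro hv
        exact ⟨hv, Set.mem_univ _⟩
      · intro hv
        exact hv.1
    rw [h2]
    exact h1
  · rw [hL]
    ext w
    constructor
    · rintro ⟨v, hv, hvP, rfl⟩
      obtain ⟨v', hv', rfl⟩ := (B1.lang_iff P v).1 hvP
      exact ⟨v', hv, hv', List.flatMap_assoc ..⟩
    · rintro ⟨v', hv, hv', rfl⟩
      exact ⟨v'.flatMap Subtype.val, hv, (B1.lang_iff P _).2 ⟨v', hv', rfl⟩,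
        (List.flatMap_assoc ..).symm⟩

end Pool.Agent.R652.SR
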