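import Pool.Agent.R652.SR.Defs

set_option autoImplicit false

/-! # Project SR, piece B2a: finitely many nonterminals suffice -/

namespace Pool.Agent.R652.SR

namespace B2A

/-- Renaming of the nonterminals in a symbol. -/
def smap {T N N' : Type} (f : N → N') : Symbol T N → Symbol T N'
  | Symbol.terminal t => Symbol.terminal t
  | Symbol.nonterminal n => Symbol.nonterminal (f n)

/-- Renaming of the nonterminals in a rule. -/
def rmap {T N N' : Type} (f : N → N') (r : ContextFreeRule T N) : ContextFreeRule T N' :=
  ⟨f r.input, r.output.map (smap f)⟩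

theorem rewrites_map {T N N' : Type} (f : N → N') (r : ContextFreeRule T N)
    {u v : List (Symbol T N)} (h : r.Rewrites u v) :
    (rmap f r).Rewrites (u.map (smap f)) (v.map (smap f)) := by
  rw [ContextFreeRule.rewrites_iff] at h ⊢
  obtain ⟨p, q, rfl, rfl⟩ := h
  refine ⟨p.map (smap f), q.map (smap f), ?_, ?_⟩
  · simp [rmap, smap]
  · simp [rmap]

theorem map_terminal {T N N' : Type} (f : N → N') (w : List T) :
    (w.map (Symbol.terminal : T → Symbol T N)).map (smap f) = w.map Symbol.terminal := by
  rw [List.map_map]
  rfl

end B2A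

open B2A

theorem t_B2a : S_B2a := by
  classical
  intro D _ K hK
  obtain ⟨g, rfl⟩ := hK
  -- the nonterminals which are used
  let nts : List (Symbol D g.NT) → Set g.NT := fun l => {n | Symbol.nonterminal n ∈ l}
  have hnts : ∀ l : List (Symbol D g.NT), (nts l).Finite := by
    intro l
    have h1 : (Symbol.nonterminal '' nts l : Set (Symbol D g.NT)).Finite :=
      (l.finite_toSet).subset (by rintro _ ⟨n, hn, rfl⟩; exact hn)
    exact h1.of_finite_image (fun a _ b _ h => Symbol.nonterminal.inj h)
  let used : Set g.NT := {g.initial} ∪ ⋃ r ∈ g.rules, ({r.input} ∪ nts r.output)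
  have hused : used.Finite := by
    refine (Set.finite_singleton _).union (Set.Finite.biUnion g.rules.finite_toSet ?_)
    intro r _
    exact (Set.finite_singleton _).union (hnts _)
  have hini : g.initial ∈ used := Or.inl rfl
  let ρ : g.NT → used := fun n => if h : n ∈ used then ⟨n, h⟩ else ⟨g.initial, hini⟩
  have hρ : ∀ n ∈ used, (ρ n : g.NT) = n := by
    intro n hn
    simp only [ρ]
    rw [dif_pos hn]
  have hrule : ∀ r ∈ g.rules, rmap (Subtype.val : used → g.NT) (rmap ρ r) = r := by
    intro r hr
    have h1 : r.input ∈ used := Or.inr (Set.mem_biUnion hr (Or.inl rfl))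
    have h2 : ∀ s ∈ r.output, smap (Subtype.val : used → g.NT) (smap ρ s) = s := by
      intro s hs
      cases s with
      | terminal t => rfl
      | nonterminal n =>
        have h3 : n ∈ used := Or.inr (Set.mem_biUnion hr (Or.inr hs))
        simp only [smap]
        rw [hρ n h3]
    cases r with
    | mk i o =>
      simp only [rmap] at h1 h2 ⊢
      rw [hρ i h1, List.map_map]
      congr 1
      conv_rhs => rw [← List.map_id o]
      exact List.map_congr_left fun s hs => h2 s hs
  let g' : ContextFreeGrammar D :=
    { NT := used
      initial := ρ g.initial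
      rules := g.rules.image (rmap ρ) }
  refine ⟨g', hused.to_subtype, ?_⟩
  have hfw : ∀ u v : List (Symbol D g.NT), g.Derives u v →
      g'.Derives (u.map (smap ρ)) (v.map (smap ρ)) := by
    intro u v h
    refine Relation.ReflTransGen.lift (List.map (smap ρ)) ?_ _ _ h
    rintro a b ⟨r, hr, hab⟩
    exact ⟨rmap ρ r, Finset.mem_image_of_mem _ hr, rewrites_map ρ r hab⟩
  have hbw : ∀ u v : List (Symbol D g'.NT), g'.Derives u v →
      g.Derives (u.map (smap (Subtype.val : used → g.NT)))
        (v.map (smap (Subtype.val : used → g.NT))) := by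
    intro u v h
    refine Relation.ReflTransGen.lift (List.map (smap (Subtype.val : used → g.NT))) ?_ _ _ h
    rintro a b ⟨r', hr', hab⟩
    obtain ⟨r, hr, rfl⟩ := Finset.mem_image.1 hr'
    refine ⟨r, hr, ?_⟩
    have h1 := rewrites_map (Subtype.val : used → g.NT) (rmap ρ r) hab
    rwa [hrule r hr] at h1
  apply Set.ext
  intro w
  constructor
  · intro hw
    have h1 : g'.Derives [Symbol.nonterminal g'.initial] (w.map Symbol.terminal) := hw
    have h2 := hbw _ _ h1
    rw [map_terminal] at h2
    have h3 : [Symbol.nonterminal g'.initial].map (smap (Subtype.val : used → g.NT)) =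
        [(Symbol.nonterminal g.initial : Symbol D g.NT)] := by
      simp only [List.map_cons, List.map_nil, smap]
      rw [show ((g'.initial : used) : g.NT) = g.initial from hρ _ hini]
    rw [h3] at h2
    exact h2
  · intro hw
    have h1 : g.Derives [Symbol.nonterminal g.initial] (w.map Symbol.terminal) := hw
    have h2 := hfw _ _ h1
    rw [map_terminal] at h2
    exact h2

end Pool.Agent.R652.SR
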