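import Pool.Agent.R652.SR.Defs

set_option autoImplicit false

/-!
# Piece B2b: Greibach normal form (semantic left-corner construction)
-/

namespace Pool.Agent.R652.SR

namespace B2bAux

/-- Big-step derivations. -/
inductive Y {D : Type} (g : ContextFreeGrammar D) : List (Symbol D g.NT) → List D → Prop
  | nil : Y g [] []
  | term (t : D) (α : List (Symbol D g.NT)) (w : List D) : Y g α w →
      Y g (Symbol.terminal t :: α) (t :: w)
  | node (r : ContextFreeRule D g.NT) (α : List (Symbol D g.NT)) (w₁ w₂ : List D) : r ∈ g.rules →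
      Y g r.output w₁ → Y g α w₂ → Y g (Symbol.nonterminal r.input :: α) (w₁ ++ w₂)

variable {D : Type} {g : ContextFreeGrammar D}

theorem Y.append {α β : List (Symbol D g.NT)} {v w : List D} (h1 : Y g α v) (h2 : Y g β w) :
    Y g (α ++ β) (v ++ w) := by
  induction h1 with
  | nil => exact h2
  | term t α v _ ih => exact Y.term _ _ _ ih
  | node r α w₁ w₂ hr h _ _ ih =>
    rw [List.cons_append, List.append_assoc]
    exact Y.node _ _ _ _ hr h ih

theorem Y.split {α β : List (Symbol D g.NT)} {w : List D} (h : Y g (α ++ β) w) :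
    ∃ w₁ w₂, w = w₁ ++ w₂ ∧ Y g α w₁ ∧ Y g β w₂ := by
  induction α generalizing w with
  | nil => exact ⟨[], w, rfl, Y.nil, h⟩
  | cons s α ih =>
    rw [List.cons_append] at h
    cases h with
    | term t _ w' h1 =>
      obtain ⟨w₁, w₂, rfl, h2, h3⟩ := ih h1
      exact ⟨_ :: w₁, w₂, rfl, Y.term _ _ _ h2, h3⟩
    | node r _ w₁ w₂ hr h1 h2 =>
      obtain ⟨v₁, v₂, rfl, h3, h4⟩ := ih h2
      exact ⟨w₁ ++ v₁, v₂, by simp, Y.node _ _ _ _ hr h1 h3, h4⟩

theorem Y_of_derives {α : List (Symbol D g.NT)} {w : List D}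
    (h : g.Derives α (w.map Symbol.terminal)) : Y g α w := by
  induction h using Relation.ReflTransGen.head_induction_on with
  | refl =>
    induction w with
    | nil => exact Y.nil
    | cons t w ih => exact Y.term _ _ _ ih
  | head hstep _ ih =>
    obtain ⟨r, hr, hrw⟩ := hstep
    obtain ⟨a, b, rfl, rfl⟩ := hrw.exists_parts
    obtain ⟨w₁, w₂, rfl, h1, h2⟩ := ih.split
    obtain ⟨w₃, w₄, rfl, h3, h4⟩ := h1.split
    refine Y.append (Y.append h3 ?_) h2
    have := Y.node r [] w₄ [] hr h4 Y.nil
    simpa using this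

theorem derives_of_Y {α : List (Symbol D g.NT)} {w : List D} (h : Y g α w) :
    g.Derives α (w.map Symbol.terminal) := by
  induction h with
  | nil => exact Relation.ReflTransGen.refl
  | term t α w _ ih => exact ih.append_left [Symbol.terminal t]
  | node r α w₁ w₂ hr _ _ ih1 ih2 =>
    have h0 : g.Derives ([Symbol.nonterminal r.input] ++ α) (r.output ++ α) := by
      refine ContextFreeGrammar.Derives.append_right ?_ α
      exact Relation.ReflTransGen.single ⟨r, hr, ContextFreeRule.Rewrites.input_output⟩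
    have h1 : g.Derives (r.output ++ α) (w₁.map Symbol.terminal ++ α) := ih1.append_right α
    have h2 : g.Derives (w₁.map Symbol.terminal ++ α)
        (w₁.map Symbol.terminal ++ w₂.map Symbol.terminal) := ih2.append_left _
    rw [List.map_append]
    exact (h0.trans h1).trans h2

theorem Y_nil {w : List D} (h : Y g [] w) : w = [] := by
  cases h; rfl

/-- Left corners. -/
inductive LC (g : ContextFreeGrammar D) (X : g.NT) : Symbol D g.NT → List D → Prop
  | refl : LC g X (Symbol.nonterminal X) []
  | up (r : ContextFreeRule D g.NT) (α : List (Symbol D g.NT)) (Yv : Symbol D g.NT)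
      (β : List (Symbol D g.NT)) (u v : List D) : r ∈ g.rules → r.output = α ++ Yv :: β →
      Y g α [] → Y g β u → LC g X (Symbol.nonterminal r.input) v → LC g X Yv (u ++ v)

theorem LC.trans {X Z : g.NT} {W : Symbol D g.NT} {u v : List D} (h1 : LC g Z W u)
    (h2 : LC g X (Symbol.nonterminal Z) v) : LC g X W (u ++ v) := by
  induction h1 with
  | refl => exact h2
  | up r α Yv β u v' hr ho hα hβ _ ih =>
    rw [List.append_assoc]
    exact LC.up r α Yv β u _ hr ho hα hβ ih

theorem LC.sound {X : g.NT} {W : Symbol D g.NT} {w y : List D} (h1 : LC g X W w)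
    (h2 : Y g [W] y) : Y g [Symbol.nonterminal X] (y ++ w) := by
  induction h1 generalizing y with
  | refl => simpa using h2
  | up r α Yv β u v' hr ho hα hβ _ ih =>
    have h3 : Y g r.output (y ++ u) := by
      rw [ho]
      have := Y.append hα (Y.append h2 hβ)
      simpa using this
    have h4 : Y g [Symbol.nonterminal r.input] (y ++ u) := by
      have := Y.node r [] _ [] hr h3 Y.nil
      simpa using this
    have := ih h4
    simpa using this

theorem corner {γ : List (Symbol D g.NT)} {w0 : List D} (h : Y g γ w0) :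
    ∀ (c : D) (w : List D), w0 = c :: w →
    ∃ (α : List (Symbol D g.NT)) (Yv : Symbol D g.NT) (β : List (Symbol D g.NT)) (u v : List D),
      γ = α ++ Yv :: β ∧ Y g α [] ∧ w = u ++ v ∧ Y g β v ∧
      ((Yv = Symbol.terminal c ∧ u = []) ∨
        ∃ Z, Yv = Symbol.nonterminal Z ∧ LC g Z (Symbol.terminal c) u) := by
  induction h with
  | nil => intro c w h; cases h
  | term t α w' h' ih =>
    intro c w hw
    simp only [List.cons.injEq] at hw
    obtain ⟨rfl, rfl⟩ := hw
    exact ⟨[], _, α, [], w', rfl, Y.nil, rfl, h', Or.inl ⟨rfl, rfl⟩⟩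
  | node r α w₁ w₂ hr h1 h2 ih1 ih2 =>
    intro c w hw
    cases w₁ with
    | nil =>
      obtain ⟨α', Yv, β, u, v, rfl, hα, rfl, hβ, hc⟩ := ih2 c w hw
      exact ⟨Symbol.nonterminal r.input :: α', Yv, β, u, v, rfl, Y.node r α' [] [] hr h1 hα,
        rfl, hβ, hc⟩
    | cons c' w₁' =>
      simp only [List.cons_append, List.cons.injEq] at hw
      obtain ⟨rfl, rfl⟩ := hw
      obtain ⟨α', Yv, β, u, v, ho, hα, rfl, hβ, hc⟩ := ih1 c' w₁' rfl
      refine ⟨[], Symbol.nonterminal r.input, α, u ++ v, w₂, rfl, Y.nil, rfl, h2,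
        Or.inr ⟨r.input, rfl, ?_⟩⟩
      have hup : LC g r.input Yv (v ++ []) := LC.up r α' Yv β v [] hr ho hα hβ LC.refl
      rw [List.append_nil] at hup
      rcases hc with ⟨rfl, rfl⟩ | ⟨Z, rfl, hZ⟩
      · exact hup
      · exact hZ.trans hup

theorem corner_nt {X : g.NT} {c : D} {w : List D} (h : Y g [Symbol.nonterminal X] (c :: w)) :
    LC g X (Symbol.terminal c) w := by
  obtain ⟨α, Yv, β, u, v, he, hα, rfl, hβ, hc⟩ := corner h c w rfl
  cases α with
  | nil =>
    simp only [List.nil_append, List.cons.injEq] at he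
    obtain ⟨rfl, rfl⟩ := he
    have := Y_nil hβ
    subst this
    rcases hc with ⟨h, _⟩ | ⟨Z, h, hZ⟩
    · cases h
    · cases h
      simpa using hZ
  | cons a α =>
    simp at he

/-- Nonterminals of the normal form. -/
abbrev NN (g : ContextFreeGrammar D) : Type := Symbol D g.NT ⊕ (g.NT × Symbol D g.NT)

/-- Meaning of the nonterminals. -/
def Sem (g : ContextFreeGrammar D) : NN g → List D → Prop
  | Sum.inl B, w => w ≠ [] ∧ Y g [B] w
  | Sum.inr p, w => w ≠ [] ∧ LC g p.1 p.2 w

/-- Meaning of lists of nonterminals. -/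
def SemL (g : ContextFreeGrammar D) : List (NN g) → List D → Prop
  | [], w => w = []
  | x :: β, w => ∃ u v, w = u ++ v ∧ Sem g x u ∧ SemL g β v

theorem SemL_append {β₁ β₂ : List (NN g)} {w : List D} :
    SemL g (β₁ ++ β₂) w ↔ ∃ u v, w = u ++ v ∧ SemL g β₁ u ∧ SemL g β₂ v := by
  induction β₁ generalizing w with
  | nil =>
    constructor
    · intro h; exact ⟨[], w, rfl, rfl, h⟩
    · rintro ⟨u, v, rfl, h1, h2⟩
      have h1' : u = [] := h1
      subst h1'
      exact h2
  | cons x β₁ ih =>
    constructor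
    · rintro ⟨u, v, rfl, h1, h2⟩
      obtain ⟨u', v', rfl, h3, h4⟩ := ih.1 h2
      exact ⟨u ++ u', v', by simp, ⟨u, u', rfl, h1, h3⟩, h4⟩
    · rintro ⟨u, v, rfl, ⟨u1, u2, rfl, h1, h2⟩, h3⟩
      exact ⟨u1, u2 ++ v, by simp, h1, ih.2 ⟨u2, v, rfl, h2, h3⟩⟩

theorem SemL_single {x : NN g} {w : List D} : SemL g [x] w ↔ Sem g x w := by
  constructor
  · rintro ⟨u, v, rfl, h1, h2⟩
    have h2' : v = [] := h2
    subst h2'
    simpa using h1
  · intro h
    exact ⟨w, [], by simp, h, rfl⟩

theorem drop_empty {β : List (Symbol D g.NT)} {w : List D} (h : Y g β w) :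
    ∃ ζ : List (Symbol D g.NT), ζ.length ≤ β.length ∧ SemL g (ζ.map Sum.inl) w ∧
      ∀ z, SemL g (ζ.map Sum.inl) z → Y g β z := by
  induction β generalizing w with
  | nil =>
    have := Y_nil h
    subst this
    refine ⟨[], le_refl _, rfl, ?_⟩
    intro z hz
    have hz' : z = [] := hz
    subst hz'
    exact Y.nil
  | cons s β ih =>
    have h' : Y g ([s] ++ β) w := h
    obtain ⟨w1, w2, rfl, h1, h2⟩ := h'.split
    obtain ⟨ζ, hl, hs, hz⟩ := ih h2
    by_cases hw : w1 = []
    · subst hw
      refine ⟨ζ, by simp; omega, by simpa using hs, ?_⟩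
      intro z hz'
      have := Y.append h1 (hz z hz')
      simpa using this
    · refine ⟨s :: ζ, by simpa using hl, ⟨w1, w2, rfl, ⟨hw, h1⟩, hs⟩, ?_⟩
      rintro z ⟨u, v, rfl, ⟨_, hu⟩, hv⟩
      exact Y.append hu (hz v hv)

theorem peel {X : g.NT} {W : Symbol D g.NT} {w : List D} (h : LC g X W w) :
    w ≠ [] → ∃ (Y' : Symbol D g.NT) (r : ContextFreeRule D g.NT) (α β : List (Symbol D g.NT))
      (u v : List D), r ∈ g.rules ∧ r.output = α ++ Y' :: β ∧ u ≠ [] ∧
      (∀ v', LC g X Y' v' → LC g X W v') ∧ Y g α [] ∧ Y g β u ∧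
      LC g X (Symbol.nonterminal r.input) v ∧ w = u ++ v := by
  induction h with
  | refl => intro h; exact absurd rfl h
  | up r α Yv β u v hr ho hα hβ hl ih =>
    intro hw
    by_cases hu : u = []
    · subst hu
      obtain ⟨Y', r', α', β', u', v', hr', ho', hu', himp, hα', hβ', hl', rfl⟩ := ih (by simpa using hw)
      refine ⟨Y', r', α', β', u', v', hr', ho', hu', ?_, hα', hβ', hl', rfl⟩
      intro z hz
      have := LC.up r α Yv β [] z hr ho hα hβ (himp z hz)
      simpa using this
    · exact ⟨Yv, r, α, β, u, v, hr, ho, hu, fun _ h => h, hα, hβ, hl, rfl⟩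

/-- Bound for the lengths of the right-hand sides. -/
noncomputable def Lmax (g : ContextFreeGrammar D) : ℕ := (g.rules.sup fun r => r.output.length) + 2

theorem first {B : Symbol D g.NT} {c : D} {b : List D}
    (hc : (B = Symbol.terminal c ∧ b = []) ∨
        ∃ Z, B = Symbol.nonterminal Z ∧ LC g Z (Symbol.terminal c) b) :
    ∃ P : List (NN g), P.length ≤ 1 ∧ SemL g P b ∧ ∀ z, SemL g P z → Y g [B] (c :: z) := by
  rcases hc with ⟨rfl, rfl⟩ | ⟨Z, rfl, hZ⟩
  · refine ⟨[], by simp, rfl, ?_⟩
    intro z hz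
    have hz' : z = [] := hz
    subst hz'
    exact Y.term c [] [] Y.nil
  · by_cases hb : b = []
    · subst hb
      refine ⟨[], by simp, rfl, ?_⟩
      intro z hz
      have hz' : z = [] := hz
      subst hz'
      have := hZ.sound (Y.term c [] [] Y.nil)
      simpa using this
    · refine ⟨[Sum.inr (Z, Symbol.terminal c)], by simp, SemL_single.2 ⟨hb, hZ⟩, ?_⟩
      intro z hz
      have hz' := SemL_single.1 hz
      have := LC.sound hz'.2 (Y.term c [] [] Y.nil)
      simpa using this

theorem last {X E : g.NT} {v : List D} (h : LC g X (Symbol.nonterminal E) v) :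
    ∃ P : List (NN g), P.length ≤ 1 ∧ SemL g P v ∧
      ∀ z, SemL g P z → LC g X (Symbol.nonterminal E) z := by
  by_cases hv : v = []
  · subst hv
    refine ⟨[], by simp, rfl, ?_⟩
    intro z hz
    have hz' : z = [] := hz
    subst hz'
    exact h
  · refine ⟨[Sum.inr (X, Symbol.nonterminal E)], by simp, SemL_single.2 ⟨hv, h⟩, ?_⟩
    intro z hz
    exact (SemL_single.1 hz).2

theorem key (x : NN g) (w : List D) (h : Sem g x w) :
    ∃ (a : D) (w' : List D) (β : List (NN g)), w = a :: w' ∧ SemL g β w' ∧ β.length ≤ Lmax g ∧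
      ∀ z, SemL g β z → Sem g x (a :: z) := by
  rcases x with B | ⟨X, W⟩
  · obtain ⟨hw, hY⟩ := h
    cases w with
    | nil => exact absurd rfl hw
    | cons c w' =>
      obtain ⟨α, Yv, β, u, v, he, hα, rfl, hβ, hc⟩ := corner hY c w' rfl
      cases α with
      | nil =>
        simp only [List.nil_append, List.cons.injEq] at he
        obtain ⟨rfl, rfl⟩ := he
        have := Y_nil hβ
        subst this
        obtain ⟨P, hP, hS, hz⟩ := first hc
        refine ⟨c, u ++ [], P, rfl, by simpa using hS, ?_, ?_⟩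
        · unfold Lmax; omega
        · intro z hz'
          exact ⟨by simp, hz z hz'⟩
      | cons a α => simp at he
  · obtain ⟨hw, hL⟩ := h
    obtain ⟨Y', r, α, β0, u, v, hr, ho, hu, himp, hα, hβ, hl, rfl⟩ := peel hL hw
    cases u with
    | nil => exact absurd rfl hu
    | cons c u' =>
      obtain ⟨β1, B, β2, b, u2, rfl, hβ1, rfl, hβ2, hc⟩ := corner hβ c u' rfl
      obtain ⟨P1, hP1, hS1, hz1⟩ := first hc
      obtain ⟨ζ, hζ, hS2, hz2⟩ := drop_empty hβ2
      obtain ⟨P2, hP2, hS3, hz3⟩ := last hl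
      refine ⟨c, b ++ u2 ++ v, P1 ++ ζ.map Sum.inl ++ P2, by simp, ?_, ?_, ?_⟩
      · exact SemL_append.2 ⟨b ++ u2, v, rfl, SemL_append.2 ⟨b, u2, rfl, hS1, hS2⟩, hS3⟩
      · have h1 : r.output.length ≤ g.rules.sup fun r => r.output.length :=
          Finset.le_sup (f := fun r : ContextFreeRule D g.NT => r.output.length) hr
        rw [ho] at h1
        simp only [List.length_append, List.length_cons] at h1
        simp only [List.length_append, List.length_map, Lmax]
        omega
      · intro z hz
        obtain ⟨z12, z3, rfl, h12, h3⟩ := SemL_append.1 hz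
        obtain ⟨z1, z2, rfl, h1, h2⟩ := SemL_append.1 h12
        refine ⟨by simp, ?_⟩
        have hb : Y g (β1 ++ B :: β2) ((c :: z1) ++ z2) := by
          have := Y.append hβ1 (Y.append (hz1 z1 h1) (hz2 z2 h2))
          simpa using this
        have := himp _ (LC.up r α Y' (β1 ++ B :: β2) _ z3 hr ho hα hb (hz3 z3 h3))
        simpa using this

theorem finSy (D N : Type) [Finite D] [Finite N] : Finite (Symbol D N) := by
  refine Finite.of_injective (β := D ⊕ N)
    (fun s => match s with
      | Symbol.terminal t => Sum.inl t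
      | Symbol.nonterminal n => Sum.inr n) ?_
  intro a b h
  cases a <;> cases b <;> simp_all

end B2bAux

open B2bAux in
theorem t_B2b : S_B2b := by
  intro D fD g hg
  haveI : Finite D := inferInstance
  haveI : Finite g.NT := hg
  haveI : Finite (Symbol D g.NT) := finSy D g.NT
  haveI : Finite (NN g) := inferInstance
  have hfin : {p : NN g × D × List (NN g) | p.2.2.length ≤ Lmax g ∧
      ∀ w, SemL g p.2.2 w → Sem g p.1 (p.2.1 :: w)}.Finite := by
    refine Set.Finite.subset (Set.finite_univ.prod (Set.finite_univ.prod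
      (List.finite_length_le (NN g) (Lmax g)))) ?_
    rintro ⟨a, b, l⟩ ⟨h, _⟩
    exact ⟨Set.mem_univ _, Set.mem_univ _, h⟩
  refine ⟨NN g, Fintype.ofFinite _, Sum.inl (Symbol.nonterminal g.initial), hfin.toFinset, ?_⟩
  have hsound : ∀ (β : List (NN g)) (w : List D), GD hfin.toFinset β w → SemL g β w := by
    intro β w h
    induction h with
    | nil => exact rfl
    | cons X a β α hr _ ih =>
      obtain ⟨u, v, rfl, h1, h2⟩ := SemL_append.1 ih
      have hr' := (Set.Finite.mem_toFinset hfin).1 hr
      exact ⟨a :: u, v, rfl, hr'.2 u h1, h2⟩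
  have hcompl : ∀ (n : ℕ) (β : List (NN g)) (w : List D), w.length ≤ n → SemL g β w →
      GD hfin.toFinset β w := by
    intro n
    induction n with
    | zero =>
      intro β w hn hS
      cases β with
      | nil =>
        have hS' : w = [] := hS
        subst hS'
        exact GD.nil
      | cons x α =>
        obtain ⟨u, v, rfl, h1, h2⟩ := hS
        obtain ⟨a, w', β', rfl, _⟩ := key x u h1
        simp at hn
    | succ n ih =>
      intro β w hn hS
      cases β with
      | nil =>
        have hS' : w = [] := hS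
        subst hS'
        exact GD.nil
      | cons x α =>
        obtain ⟨u, v, rfl, h1, h2⟩ := hS
        obtain ⟨a, w', β', rfl, h3, h4, h5⟩ := key x u h1
        rw [List.cons_append]
        refine GD.cons x a β' α ((Set.Finite.mem_toFinset hfin).2 ⟨h4, h5⟩) (ih _ _ ?_ ?_)
        · simp only [List.cons_append, List.length_cons] at hn
          omega
        · exact SemL_append.2 ⟨w', v, rfl, h3, h2⟩
  intro w
  constructor
  · intro h
    have h1 := SemL_single.1 (hsound _ _ h)
    refine ⟨?_, h1.1⟩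
    rw [ContextFreeGrammar.mem_language_iff]
    exact derives_of_Y h1.2
  · rintro ⟨h1, h2⟩
    rw [ContextFreeGrammar.mem_language_iff] at h1
    exact hcompl w.length _ _ (le_refl _) (SemL_single.2 ⟨h2, Y_of_derives h1⟩)

end Pool.Agent.R652.SR
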