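import Pool.Agent.R652.SR.Defs

/-!
# Project SR, piece B3c: completeness of the machine
-/

set_option autoImplicit false

namespace Pool.Agent.R652.SR

namespace B3cAux

theorem run_append {A : Type} (M : SPDA A) {μ ν : List M.Ru} {s s' s'' : List M.G}
    {q q' q'' : M.Q} (h : M.Run μ s q s' q') (h' : M.Run ν s' q' s'' q'') :
    M.Run (μ ++ ν) s q s'' q'' := by
  induction h with
  | nil s q => exact h'
  | cons r s _ ih => exact SPDA.Run.cons r s (ih h')

section

variable {A D N : Type} {n : ℕ} (S : N) (rules : Finset (N × D × List N)) (P : PRLG (n + 1) D)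
  (h : D → List A) (fQ : Fintype (St P)) (fG : Fintype (Sk N P)) (fR : Fintype (Rl rules P))

/-- runs of the machine -/
def mRun (μ : List (Rl rules P)) (s : List (Sk N P)) (q : St P) (s' : List (Sk N P))
    (q' : St P) : Prop := (mach S rules P h fQ fG fR).Run μ s q s' q'

/-- inputs of the machine -/
def mInp (r : Rl rules P) : List A := (mach S rules P h fQ fG fR).inp r

/-- targets of the machine -/
def mTgt (r : Rl rules P) : St P := (mach S rules P h fQ fG fR).tgt r

theorem mRun_nil (s : List (Sk N P)) (q : St P) : mRun S rules P h fQ fG fR [] s q s q :=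
  SPDA.Run.nil _ _

theorem mRun_append {μ ν : List (Rl rules P)} {s s' s'' : List (Sk N P)} {q q' q'' : St P}
    (k : mRun S rules P h fQ fG fR μ s q s' q') (k' : mRun S rules P h fQ fG fR ν s' q' s'' q'') :
    mRun S rules P h fQ fG fR (μ ++ ν) s q s'' q'' :=
  run_append (mach S rules P h fQ fG fR) k k'

theorem mRun_last (τ : Tup P) (i : Fin (n + 1)) (p : {p // p ∈ P.fin i}) (g : {g // g ∈ rules})
    (hg : p.1.2 = [g.1.2.1]) (s : List (Sk N P)) :
    mRun S rules P h fQ fG fR [Rl.last τ i p g hg] (Sk.nt g.1.1 :: s) (St.run τ i p.1.1)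
      (g.1.2.2.map Sk.nt ++ s) (St.done τ i) :=
  SPDA.Run.cons (M := mach S rules P h fQ fG fR) (Rl.last τ i p g hg) s (SPDA.Run.nil _ _)

theorem mRun_letter (τ : Tup P) (i : Fin (n + 1)) (p : {p // p ∈ P.step i})
    (g : {g // g ∈ rules}) (hg : p.1.2.1 = [g.1.2.1]) (s : List (Sk N P))
    {μ : List (Rl rules P)} {s' : List (Sk N P)} {q' : St P}
    (k : mRun S rules P h fQ fG fR μ (g.1.2.2.map Sk.nt ++ s) (St.run τ i p.1.2.2) s' q') :
    mRun S rules P h fQ fG fR (Rl.letter τ i p g hg :: μ) (Sk.nt g.1.1 :: s)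
      (St.run τ i p.1.1) s' q' :=
  SPDA.Run.cons (M := mach S rules P h fQ fG fR) (Rl.letter τ i p g hg) s k

theorem mRun_init (τ : Tup P) (hτ : τ ∈ P.start) :
    mRun S rules P h fQ fG fR [Rl.init τ hτ] [Sk.z0] St.q0 [Sk.nt S, Sk.bot]
      (St.run τ 0 (τ 0)) :=
  SPDA.Run.cons (M := mach S rules P h fQ fG fR) (Rl.init τ hτ) [] (SPDA.Run.nil _ _)

theorem mRun_mark (τ : Tup P) (i : Fin n) (s : List (Sk N P)) :
    mRun S rules P h fQ fG fR [Rl.mark τ i] (Sk.info τ i :: s) St.qt s
      (St.run τ i.succ (τ i.succ)) :=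
  SPDA.Run.cons (M := mach S rules P h fQ fG fR) (Rl.mark τ i) s (SPDA.Run.nil _ _)

theorem mRun_endB (τ : Tup P) (i : Fin n) (Z : Sk N P) (s : List (Sk N P)) :
    mRun S rules P h fQ fG fR [Rl.endB τ i Z] (Z :: s) (St.done τ i.castSucc)
      (Sk.info τ i :: Z :: s) St.qt :=
  SPDA.Run.cons (M := mach S rules P h fQ fG fR) (Rl.endB τ i Z) s (SPDA.Run.nil _ _)

theorem mRun_endF (τ : Tup P) :
    mRun S rules P h fQ fG fR [Rl.endF τ] [Sk.bot] (St.done τ (Fin.last n)) [] St.fin :=
  SPDA.Run.cons (M := mach S rules P h fQ fG fR) (Rl.endF τ) [] (SPDA.Run.nil _ _)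

theorem block (hP : P.Strict) (τ : Tup P) (i : Fin (n + 1)) {t : ℕ} {Y : P.N i} {u : List D}
    (hd : P.Der i t Y u) :
    ∀ (α : List N) (w : List D), GD rules α (u ++ w) →
      ∃ (ρ : List (Rl rules P)) (β : List N), ρ.length = t ∧ GD rules β w ∧
      (∀ s : List (Sk N P), mRun S rules P h fQ fG fR ρ (α.map Sk.nt ++ s) (St.run τ i Y)
        (β.map Sk.nt ++ s) (St.done τ i)) ∧
      ρ.flatMap (mInp S rules P h fQ fG fR) = u.flatMap h ∧
      ∀ r ∈ ρ, mTgt S rules P h fQ fG fR r ≠ St.qt := by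
  induction hd with
  | fin Y x hx =>
    intro α w hg
    have hx1 := hP.2 i (Y, x) hx
    obtain ⟨a, ha⟩ := List.length_eq_one_iff.1 hx1
    simp only at ha
    subst ha
    rw [List.singleton_append] at hg
    cases hg with
    | cons Z _ β α' hr hg' =>
      refine ⟨[Rl.last τ i ⟨(Y, [a]), hx⟩ ⟨(Z, a, β), hr⟩ rfl], β ++ α', rfl, hg', ?_, ?_, ?_⟩
      · intro s
        rw [List.map_append, List.append_assoc]
        exact mRun_last S rules P h fQ fG fR τ i ⟨(Y, [a]), hx⟩ ⟨(Z, a, β), hr⟩ rfl
          (α'.map Sk.nt ++ s)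
      · rw [List.flatMap_cons, List.flatMap_nil, List.flatMap_cons, List.flatMap_nil]
        rfl
      · intro r hr'
        rw [List.mem_singleton] at hr'
        subst hr'
        intro hc
        have hc' : (St.done τ i : St P) = St.qt := hc
        cases hc'
  | step Y x Y' hx _ ih =>
    intro α w hg
    have hx1 := hP.1 i (Y, x, Y') hx
    obtain ⟨a, ha⟩ := List.length_eq_one_iff.1 hx1
    simp only at ha
    subst ha
    rw [List.append_assoc, List.singleton_append] at hg
    cases hg with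
    | cons Z _ β α' hr hg' =>
      obtain ⟨ρ, γ, h1, h2, h3, h4, h5⟩ := ih (β ++ α') w hg'
      refine ⟨Rl.letter τ i ⟨(Y, [a], Y'), hx⟩ ⟨(Z, a, β), hr⟩ rfl :: ρ, γ, ?_, h2, ?_, ?_, ?_⟩
      · rw [List.length_cons, h1]
      · intro s
        have h6 := h3 s
        rw [List.map_append, List.append_assoc] at h6
        exact mRun_letter S rules P h fQ fG fR τ i ⟨(Y, [a], Y'), hx⟩ ⟨(Z, a, β), hr⟩ rfl
          (α'.map Sk.nt ++ s) h6
      · rw [List.flatMap_cons, h4, List.flatMap_append, List.flatMap_cons, List.flatMap_nil,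
          List.append_nil]
        rfl
      · intro r hr'
        rcases List.mem_cons.1 hr' with rfl | hr'
        · intro hc
          have hc' : (St.run τ i Y' : St P) = St.qt := hc
          cases hc'
        · exact h5 r hr'

/-- the blocks -/
theorem blocks (hP : P.Strict) (τ : Tup P) {t : ℕ} (u : Fin (n + 1) → List D)
    (hu : ∀ i, P.Der i t (τ i) (u i)) (hg : GD rules [S] (List.ofFn u).flatten) (m : ℕ)
    (hm : m ≤ n + 1) :
    ∃ (ρ : ℕ → List (Rl rules P)) (α : ℕ → List N), α 0 = [S] ∧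
      GD rules (α m) ((List.ofFn u).drop m).flatten ∧
      ∀ (i : ℕ) (hi : i < n + 1), i < m → (ρ i).length = t ∧
        (∀ s : List (Sk N P), mRun S rules P h fQ fG fR (ρ i) ((α i).map Sk.nt ++ s)
          (St.run τ ⟨i, hi⟩ (τ ⟨i, hi⟩)) ((α (i + 1)).map Sk.nt ++ s) (St.done τ ⟨i, hi⟩)) ∧
        (ρ i).flatMap (mInp S rules P h fQ fG fR) = (u ⟨i, hi⟩).flatMap h ∧
        ∀ r ∈ ρ i, mTgt S rules P h fQ fG fR r ≠ St.qt := by
  induction m with
  | zero =>
    refine ⟨fun _ => [], fun _ => [S], rfl, ?_, ?_⟩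
    · rw [List.drop_zero]
      exact hg
    · intro i _ hi
      exact absurd hi (Nat.not_lt_zero i)
  | succ m ih =>
    obtain ⟨ρ, α, h0, h1, h2⟩ := ih (by omega)
    have hmn : m < n + 1 := by omega
    have hdrop : ((List.ofFn u).drop m).flatten =
        u ⟨m, hmn⟩ ++ ((List.ofFn u).drop (m + 1)).flatten := by
      have hl : m < (List.ofFn u).length := by
        rw [List.length_ofFn]
        exact hmn
      rw [List.drop_eq_getElem_cons hl, List.flatten_cons, List.getElem_ofFn]
    rw [hdrop] at h1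
    obtain ⟨ρ', β, k1, k2, k3, k4, k5⟩ := block S rules P h fQ fG fR hP τ ⟨m, hmn⟩
      (hu ⟨m, hmn⟩) (α m) _ h1
    refine ⟨Function.update ρ m ρ', Function.update α (m + 1) β, ?_, ?_, ?_⟩
    · rw [Function.update_of_ne (by omega)]
      exact h0
    · rw [Function.update_self]
      exact k2
    · intro i hi him
      rcases Nat.lt_succ_iff_lt_or_eq.1 him with hlt | rfl
      · rw [Function.update_of_ne (by omega), Function.update_of_ne (by omega),
          Function.update_of_ne (by omega)]
        exact h2 i hi hlt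
      · rw [Function.update_self, Function.update_of_ne (by omega), Function.update_self]
        exact ⟨k1, k3, k4, k5⟩

/-- the top of the pushdown -/
def Zof (α : List N) : Sk N P := match α with
  | [] => Sk.bot
  | X :: _ => Sk.nt X

/-- the rest of the pushdown -/
def Rest (α : List N) : List (Sk N P) := match α with
  | [] => []
  | _ :: α' => α'.map Sk.nt ++ [Sk.bot]

theorem zof_rest (α : List N) :
    α.map (Sk.nt (P := P)) ++ [Sk.bot] = Zof P α :: Rest P α := by
  cases α with
  | nil => rfl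
  | cons X α' => rfl

end

end B3cAux

open B3cAux in
theorem t_B3c : S_B3c := by
  intro A D N n S rules P h fQ fG fR hn hP w hw
  obtain ⟨v, hvg, ⟨τ, hτ, t, u, hu, rfl⟩, rfl⟩ := hw
  have hvg' : GD rules [S] (List.ofFn u).flatten := hvg
  obtain ⟨ρ, α, h0, h1, h2⟩ := blocks S rules P h fQ fG fR hP τ u hu hvg' (n + 1) (le_refl _)
  have hα : α (n + 1) = [] := by
    rw [List.drop_eq_nil_of_le (by rw [List.length_ofFn]), List.flatten_nil] at h1
    generalize α (n + 1) = x at h1
    cases h1
    rfl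
  -- the blocks
  obtain ⟨hd, hhd0, hhdS⟩ : ∃ hd : ℕ → List (Rl rules P), hd 0 = [Rl.init τ hτ] ∧
      ∀ j (hj : j < n), hd (j + 1) = [Rl.mark τ ⟨j, hj⟩] := by
    refine ⟨fun j => if hj : j = 0 then [Rl.init τ hτ] else
      if hj' : j - 1 < n then [Rl.mark τ ⟨j - 1, hj'⟩] else [], by simp, ?_⟩
    intro j hj
    simp [hj]
  obtain ⟨tl, htlB, htlF⟩ : ∃ tl : ℕ → List (Rl rules P),
      (∀ j (hj : j < n), tl j = [Rl.endB τ ⟨j, hj⟩ (Zof P (α (j + 1)))]) ∧
        tl n = [Rl.endF τ] := by
    refine ⟨fun j => if hj : j < n then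
      [Rl.endB τ ⟨j, hj⟩ (Zof P (α (j + 1)))] else [Rl.endF τ], ?_, by simp⟩
    intro j hj
    simp [hj]
  obtain ⟨pd, hpd0, hpdS, hpdF⟩ : ∃ pd : ℕ → List (Sk N P), pd 0 = [Sk.z0] ∧
      (∀ j (hj : j < n), pd (j + 1) =
        Sk.info τ ⟨j, hj⟩ :: ((α (j + 1)).map Sk.nt ++ [Sk.bot])) ∧ pd (n + 1) = [] := by
    refine ⟨fun j => if hj : j = 0 then [Sk.z0] else
      if hj' : j - 1 < n then Sk.info τ ⟨j - 1, hj'⟩ :: ((α j).map Sk.nt ++ [Sk.bot]) else [],
      by simp, ?_, by simp⟩
    intro j hj
    simp [hj]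
  obtain ⟨stt, hst0, hstS, hstF⟩ : ∃ stt : ℕ → St P, stt 0 = St.q0 ∧
      (∀ j, j < n → stt (j + 1) = St.qt) ∧ stt (n + 1) = St.fin := by
    refine ⟨fun j => if j = 0 then St.q0 else if j - 1 < n then St.qt else St.fin, by simp, ?_,
      by simp⟩
    intro j hj
    simp [hj]
  -- run of the head
  have hrun1 : ∀ j (hj : j < n + 1), mRun S rules P h fQ fG fR (hd j) (pd j) (stt j)
      ((α j).map Sk.nt ++ [Sk.bot]) (St.run τ ⟨j, hj⟩ (τ ⟨j, hj⟩)) := by
    intro j hj
    rcases j with _ | j
    · rw [hhd0, hpd0, hst0, h0]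
      exact mRun_init S rules P h fQ fG fR τ hτ
    · have hj' : j < n := by omega
      rw [hhdS j hj', hpdS j hj', hstS j hj']
      exact mRun_mark S rules P h fQ fG fR τ ⟨j, hj'⟩ _
  have hrun2 : ∀ j (hj : j < n + 1), mRun S rules P h fQ fG fR (tl j)
      ((α (j + 1)).map Sk.nt ++ [Sk.bot])
      (St.done τ ⟨j, hj⟩) (pd (j + 1)) (stt (j + 1)) := by
    intro j hj
    by_cases hjn : j < n
    · rw [hpdS j hjn, hstS j hjn, htlB j hjn, zof_rest]
      exact mRun_endB S rules P h fQ fG fR τ ⟨j, hjn⟩ (Zof P (α (j + 1))) _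
    · have hjn' : j = n := by omega
      subst hjn'
      rw [htlF, hpdF, hstF, hα]
      exact mRun_endF S rules P h fQ fG fR τ
  have hrun : ∀ j, j < n + 1 → mRun S rules P h fQ fG fR (hd j ++ ρ j ++ tl j) (pd j) (stt j)
      (pd (j + 1)) (stt (j + 1)) := by
    intro j hj
    obtain ⟨-, k2, -, -⟩ := h2 j hj hj
    exact mRun_append S rules P h fQ fG fR (mRun_append S rules P h fQ fG fR (hrun1 j hj)
      (k2 [Sk.bot])) (hrun2 j hj)
  obtain ⟨bl, hbl⟩ : ∃ bl : ℕ → List (Rl rules P), ∀ j, bl j = hd j ++ ρ j ++ tl j :=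
    ⟨_, fun _ => rfl⟩
  have htot : ∀ m, m ≤ n + 1 → mRun S rules P h fQ fG fR (((List.range m).map bl).flatten)
      (pd 0) (stt 0) (pd m) (stt m) := by
    intro m
    induction m with
    | zero =>
      intro _
      exact mRun_nil S rules P h fQ fG fR _ _
    | succ m ih =>
      intro hm
      rw [List.range_succ, List.map_append, List.flatten_append]
      refine mRun_append S rules P h fQ fG fR (ih (by omega)) ?_
      have := hrun m (by omega)
      rw [← hbl] at this
      simpa using this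
  have hlen : ∀ j, j < n + 1 → (bl j).length = t + 2 := by
    intro j hj
    obtain ⟨k1, -, -, -⟩ := h2 j hj hj
    have e1 : (hd j).length = 1 := by
      rcases j with _ | j
      · rw [hhd0]
        rfl
      · rw [hhdS j (by omega)]
        rfl
    have e2 : (tl j).length = 1 := by
      by_cases hjn : j < n
      · rw [htlB j hjn]
        rfl
      · have hjn' : j = n := by omega
        rw [hjn', htlF]
        rfl
    rw [hbl, List.length_append, List.length_append, e1, e2, k1]
    omega
  have hofFn : List.ofFn (fun j : Fin (n + 1) => bl j) = (List.range (n + 1)).map bl := by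
    apply List.ext_getElem
    · rw [List.length_ofFn, List.length_map, List.length_range]
    · intro i h1 h2
      rw [List.getElem_ofFn, List.getElem_map, List.getElem_range]
  have hinp1 : ∀ j, j < n + 1 → (hd j).flatMap (mInp S rules P h fQ fG fR) = [] := by
    intro j hj
    rcases j with _ | j
    · rw [hhd0]
      rfl
    · rw [hhdS j (by omega)]
      rfl
  have hinp2 : ∀ j, j < n + 1 → (tl j).flatMap (mInp S rules P h fQ fG fR) = [] := by
    intro j hj
    by_cases hjn : j < n
    · rw [htlB j hjn]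
      rfl
    · have hjn' : j = n := by omega
      rw [hjn', htlF]
      rfl
  have hword : ∀ m, m ≤ n + 1 →
      (((List.range m).map bl).flatten).flatMap (mInp S rules P h fQ fG fR) =
      (((List.ofFn u).take m).flatten).flatMap h := by
    intro m
    induction m with
    | zero =>
      intro _
      rfl
    | succ m ih =>
      intro hm
      have hmn : m < n + 1 := by omega
      have hl : m < (List.ofFn u).length := by
        rw [List.length_ofFn]
        exact hmn
      obtain ⟨-, -, k3, -⟩ := h2 m hmn hmn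
      rw [List.range_succ, List.map_append, List.flatten_append, List.flatMap_append,
        ih (by omega), List.take_succ_eq_append_getElem hl, List.flatten_append,
        List.flatMap_append, List.getElem_ofFn]
      congr 1
      simp only [List.map_cons, List.map_nil, List.flatten_cons, List.flatten_nil,
        List.append_nil]
      rw [hbl, List.flatMap_append, List.flatMap_append, hinp1 m hmn, hinp2 m hmn, k3,
        List.nil_append, List.append_nil]
  refine ⟨((List.range (n + 1)).map bl).flatten, St.fin, rfl, ?_, ?_, ?_⟩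
  · have e := htot (n + 1) (le_refl _)
    rw [hpd0, hst0, hpdF, hstF] at e
    exact e
  · obtain ⟨-, -, -, k4⟩ := h2 0 (by omega) (by omega)
    have hn' : 0 < n := by omega
    have q1 : ∃ (t' : List (Rl rules P)) (r : Rl rules P), bl 0 = t' ++ [r] ∧
        mTgt S rules P h fQ fG fR r = St.qt ∧ ∀ s ∈ t', mTgt S rules P h fQ fG fR s ≠ St.qt := by
      refine ⟨hd 0 ++ ρ 0, Rl.endB τ ⟨0, hn'⟩ (Zof P (α (0 + 1))), ?_, rfl, ?_⟩
      · rw [hbl, htlB 0 hn']
      · intro s hs
        rcases List.mem_append.1 hs with hs | hs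
        · rw [hhd0, List.mem_singleton] at hs
          subst hs
          intro hc
          have hc' : (St.run τ 0 (τ 0) : St P) = St.qt := hc
          cases hc'
        · exact k4 s hs
    have q2 : ∀ j : Fin n, ∃ (r s : Rl rules P),
        (bl (j.castSucc : Fin (n + 1)).1).head? = some r ∧
        (bl (j.succ : Fin (n + 1)).1).head? = some s ∧
        ∃ i, r.lev = some i ∧ s.lev = some (i + 1) := by
      intro j
      have e2 : (bl (j.succ : Fin (n + 1)).1).head? = some (Rl.mark τ j) := by
        rw [Fin.val_succ, hbl, hhdS j.1 j.2]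
        rfl
      have e1 : ∃ r, (bl (j.castSucc : Fin (n + 1)).1).head? = some r ∧ r.lev = some j.1 := by
        rw [Fin.val_castSucc]
        obtain ⟨j', hj⟩ := j
        rcases j' with _ | j'
        · refine ⟨Rl.init τ hτ, ?_, rfl⟩
          rw [hbl, hhd0]
          rfl
        · have hj' : j' < n := by omega
          refine ⟨Rl.mark τ ⟨j', hj'⟩, ?_, rfl⟩
          rw [hbl, hhdS j' hj']
          rfl
      obtain ⟨r, hr1, hr2⟩ := e1
      exact ⟨r, Rl.mark τ j, hr1, e2, j.1, hr2, rfl⟩
    refine ⟨t + 2, fun j : Fin (n + 1) => bl j, by omega, fun j => hlen j j.2, ?_, ?_, ?_⟩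
    · exact congrArg List.flatten hofFn.symm
    · obtain ⟨t', r, r1, r2, r3⟩ := q1
      exact ⟨t', r, r1, r2, r3⟩
    · intro j
      exact q2 j
  · have e := hword (n + 1) (le_refl _)
    rw [List.take_of_length_le (by rw [List.length_ofFn])] at e
    exact e.symm

end Pool.Agent.R652.SR
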