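import Mathlib

set_option autoImplicit false

/-!
# First-move self-regulating pushdown automata: definitions and exact statements of the pieces
-/

namespace Pool.Agent.R652.SR

/-- A self-regulating pushdown automaton with input alphabet `A`: finitely many rules, rule `r` being
`(top r) (src r) (inp r) → (push r) (tgt r)`.  Pushdown contents are lists whose FIRST entry is the top;
`push r` is written in the same way (its first entry becomes the new top). -/
structure SPDA (A : Type) where
  /-- states -/
  Q : Type
  /-- pushdown symbols -/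
  G : Type
  /-- rules -/
  Ru : Type
  finQ : Fintype Q
  finG : Fintype G
  finRu : Fintype Ru
  /-- pushdown symbol removed by the rule -/
  top : Ru → G
  /-- state in which the rule applies -/
  src : Ru → Q
  /-- input word read by the rule (possibly empty) -/
  inp : Ru → List A
  /-- pushdown word written by the rule (first entry is the new top) -/
  push : Ru → List G
  /-- new state -/
  tgt : Ru → Q
  /-- initial state -/
  q0 : Q
  /-- turn state -/
  qt : Q
  /-- initial pushdown symbol -/
  Z0 : G
  /-- final states -/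
  F : Set Q
  /-- the relation on rules -/
  R : Ru → Ru → Prop

/-- `M.Run μ s q s' q'`: the sequence of rules `μ` leads from pushdown `s` and state `q` to pushdown
`s'` and state `q'`. -/
inductive SPDA.Run {A : Type} (M : SPDA A) : List M.Ru → List M.G → M.Q → List M.G → M.Q → Prop
  | nil (s : List M.G) (q : M.Q) : SPDA.Run M [] s q s q
  | cons (r : M.Ru) (s : List M.G) {μ : List M.Ru} {s' : List M.G} {q' : M.Q} :
      SPDA.Run M μ (M.push r ++ s) (M.tgt r) s' q' →
      SPDA.Run M (r :: μ) (M.top r :: s) (M.src r) s' q'

/-- The sequence `μ` splits into `n + 1` blocks of equal length `k ≥ 1`, the first block ends with the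
first entry of `μ` which belongs to `turn`, and the first entries of consecutive blocks are related
by `R`. -/
def Split {U : Type} (n : ℕ) (turn : Set U) (R : U → U → Prop) (μ : List U) : Prop :=
  ∃ (k : ℕ) (u : Fin (n + 1) → List U), 1 ≤ k ∧ (∀ j, (u j).length = k) ∧
    μ = (List.ofFn u).flatten ∧
    (∃ t r, u 0 = t ++ [r] ∧ r ∈ turn ∧ ∀ s ∈ t, s ∉ turn) ∧
    ∀ j : Fin n, ∃ r s, (u j.castSucc).head? = some r ∧ (u j.succ).head? = some s ∧ R r s

/-- The language of the `n`-turn first-move self-regulating pushdown automaton `M`. -/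
def SPDA.lang {A : Type} (M : SPDA A) (n : ℕ) : Language A :=
  {w | ∃ (μ : List M.Ru) (f : M.Q), f ∈ M.F ∧ M.Run μ [M.Z0] M.q0 [] f ∧
    Split n {r | M.tgt r = M.qt} M.R μ ∧ w = μ.flatMap M.inp}

/-- The family `FSPDA_n`. -/
def FSPDA {A : Type} (n : ℕ) (L : Language A) : Prop := ∃ M : SPDA A, L = M.lang n

/-- An `m`-parallel right-linear grammar with terminal alphabet `T`: initial productions
`S → X_1 ⋯ X_m`, and for each component `i` productions `X → x Y` (`step`) and `X → x` (`fin`) with
`x` a word over `T`. -/
structure PRLG (m : ℕ) (T : Type) where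
  /-- nonterminals of the components -/
  N : Fin m → Type
  finN : ∀ i, Fintype (N i)
  /-- initial productions -/
  start : Set (∀ i, N i)
  /-- productions `X → x Y` -/
  step : ∀ i, Finset (N i × List T × N i)
  /-- productions `X → x` -/
  fin : ∀ i, Finset (N i × List T)

/-- `P.Der i t X u`: component `i` derives the terminal word `u` from `X` in exactly `t` steps. -/
inductive PRLG.Der {m : ℕ} {T : Type} (P : PRLG m T) (i : Fin m) : ℕ → P.N i → List T → Prop
  | fin (X : P.N i) (x : List T) : (X, x) ∈ P.fin i → PRLG.Der P i 1 X x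
  | step (X : P.N i) (x : List T) (Y : P.N i) {t : ℕ} {u : List T} : (X, x, Y) ∈ P.step i →
      PRLG.Der P i t Y u → PRLG.Der P i (t + 1) X (x ++ u)

/-- The language generated by `P`: in each derivation step all components rewrite their nonterminal
in parallel, so all components finish after the same number `t` of steps. -/
def PRLG.lang {m : ℕ} {T : Type} (P : PRLG m T) : Language T :=
  {w | ∃ X ∈ P.start, ∃ (t : ℕ) (u : Fin m → List T), (∀ i, P.Der i t (X i) (u i)) ∧
    w = (List.ofFn u).flatten}

/-- Every production (apart from the initial ones) writes exactly one terminal letter. -/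
def PRLG.Strict {m : ℕ} {T : Type} (P : PRLG m T) : Prop :=
  (∀ i, ∀ p ∈ P.step i, p.2.1.length = 1) ∧ ∀ i, ∀ p ∈ P.fin i, p.2.length = 1

/-- The homomorphic image of the intersection of `K` and `P`. -/
def Img {A D : Type} (K P : Language D) (h : D → List A) : Language A :=
  {w | ∃ v, v ∈ K ∧ v ∈ P ∧ w = v.flatMap h}

/-- `L` is a homomorphic image of the intersection of a context-free language with an
`m`-parallel right-linear language. -/
def HCP {A : Type} (m : ℕ) (L : Language A) : Prop :=
  ∃ (D : Type) (_ : Fintype D) (K : Language D) (P : PRLG m D) (h : D → List A),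
    K.IsContextFree ∧ L = Img K P.lang h

/-- The same with a grammar all of whose productions write one letter. -/
def HCPs {A : Type} (m : ℕ) (L : Language A) : Prop :=
  ∃ (D : Type) (_ : Fintype D) (K : Language D) (P : PRLG m D) (h : D → List A),
    K.IsContextFree ∧ P.Strict ∧ L = Img K P.lang h

/-- Piece A1: the sequences of rules of the accepting computations form a context-free language. -/
def S_A1 : Prop := ∀ (A : Type) (M : SPDA A),
  Language.IsContextFree ({μ | ∃ f ∈ M.F, M.Run μ [M.Z0] M.q0 [] f} : Language M.Ru)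

/-- Piece A2: the set of correctly split sequences is strict parallel right-linear. -/
def S_A2 : Prop := ∀ (U : Type) (_ : Fintype U) (n : ℕ) (turn : Set U) (R : U → U → Prop),
  ∃ P : PRLG (n + 1) U, P.Strict ∧ P.lang = ({μ | Split n turn R μ} : Language U)

/-- Piece B1: strictness can be assumed. -/
def S_B1 : Prop := ∀ (A : Type) (m : ℕ) (L : Language A), HCP m L → HCPs m L

/-- Leftmost derivations of a grammar in Greibach normal form with productions `X → a β`. -/
inductive GD {N D : Type} (rules : Finset (N × D × List N)) : List N → List D → Prop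
  | nil : GD rules [] []
  | cons (X : N) (a : D) (β α : List N) {w : List D} : (X, a, β) ∈ rules → GD rules (β ++ α) w →
      GD rules (X :: α) (a :: w)

/-- Piece B2a: finitely many nonterminals suffice. -/
def S_B2a : Prop := ∀ (D : Type) (_ : Fintype D) (K : Language D), K.IsContextFree →
  ∃ g : ContextFreeGrammar D, Finite g.NT ∧ g.language = K

/-- Piece B2b: Greibach normal form. -/
def S_B2b : Prop := ∀ (D : Type) (_ : Fintype D) (g : ContextFreeGrammar D), Finite g.NT →
  ∃ (N : Type) (_ : Fintype N) (S : N) (rules : Finset (N × D × List N)),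
    ∀ w : List D, GD rules [S] w ↔ w ∈ g.language ∧ w ≠ []

section machine

variable {A D N : Type} {n : ℕ} (S : N) (rules : Finset (N × D × List N)) (P : PRLG (n + 1) D)
  (h : D → List A)

/-- Tuples of nonterminals. -/
abbrev Tup (P : PRLG (n + 1) D) : Type := ∀ i, P.N i

/-- States of the machine. -/
inductive St (P : PRLG (n + 1) D) : Type
  | q0 : St P
  | qt : St P
  | fin : St P
  | run (τ : Tup P) (i : Fin (n + 1)) (X : P.N i) : St P
  | done (τ : Tup P) (i : Fin (n + 1)) : St P

/-- Pushdown symbols of the machine. -/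
inductive Sk (N : Type) (P : PRLG (n + 1) D) : Type
  | z0 : Sk N P
  | bot : Sk N P
  | nt (X : N) : Sk N P
  | info (τ : Tup P) (i : Fin n) : Sk N P

/-- Rules of the machine. -/
inductive Rl (rules : Finset (N × D × List N)) (P : PRLG (n + 1) D) : Type
  | init (τ : Tup P) (hτ : τ ∈ P.start) : Rl rules P
  | letter (τ : Tup P) (i : Fin (n + 1)) (p : {p // p ∈ P.step i}) (g : {g // g ∈ rules})
      (hg : p.1.2.1 = [g.1.2.1]) : Rl rules P
  | last (τ : Tup P) (i : Fin (n + 1)) (p : {p // p ∈ P.fin i}) (g : {g // g ∈ rules})
      (hg : p.1.2 = [g.1.2.1]) : Rl rules P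
  | endB (τ : Tup P) (i : Fin n) (Z : Sk N P) : Rl rules P
  | mark (τ : Tup P) (i : Fin n) : Rl rules P
  | endF (τ : Tup P) : Rl rules P

/-- Levels of the marker rules. -/
def Rl.lev {rules : Finset (N × D × List N)} {P : PRLG (n + 1) D} : Rl rules P → Option ℕ
  | .init _ _ => some 0
  | .mark _ i => some (i.val + 1)
  | _ => none

/-- The machine. -/
def mach (fQ : Fintype (St P)) (fG : Fintype (Sk N P)) (fR : Fintype (Rl rules P)) : SPDA A where
  Q := St P
  G := Sk N P
  Ru := Rl rules P
  finQ := fQ
  finG := fG
  finRu := fR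
  top
    | .init _ _ => .z0
    | .letter _ _ _ g _ => .nt g.1.1
    | .last _ _ _ g _ => .nt g.1.1
    | .endB _ _ Z => Z
    | .mark τ i => .info τ i
    | .endF _ => .bot
  src
    | .init _ _ => .q0
    | .letter τ i p _ _ => .run τ i p.1.1
    | .last τ i p _ _ => .run τ i p.1.1
    | .endB τ i _ => .done τ i.castSucc
    | .mark _ _ => .qt
    | .endF τ => .done τ (Fin.last n)
  inp
    | .letter _ _ _ g _ => h g.1.2.1
    | .last _ _ _ g _ => h g.1.2.1
    | _ => []
  push
    | .init _ _ => [.nt S, .bot]
    | .letter _ _ _ g _ => g.1.2.2.map .nt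
    | .last _ _ _ g _ => g.1.2.2.map .nt
    | .endB τ i Z => [.info τ i, Z]
    | .mark _ _ => []
    | .endF _ => []
  tgt
    | .init τ _ => .run τ 0 (τ 0)
    | .letter τ i p _ _ => .run τ i p.1.2.2
    | .last τ i _ _ _ => .done τ i
    | .endB _ _ _ => .qt
    | .mark τ i => .run τ i.succ (τ i.succ)
    | .endF _ => .fin
  q0 := .q0
  qt := .qt
  Z0 := .z0
  F := {.fin}
  R r s := ∃ j, r.lev = some j ∧ s.lev = some (j + 1)

end machine

/-- Piece B3f: the machine is finite. -/
def S_B3f : Prop := ∀ (D N : Type) (n : ℕ) (rules : Finset (N × D × List N)) (P : PRLG (n + 1) D),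
  Finite N → Finite (St P) ∧ Finite (Sk N P) ∧ Finite (Rl rules P)

/-- Piece B3s: soundness of the machine. -/
def S_B3s : Prop := ∀ (A D N : Type) (n : ℕ) (S : N) (rules : Finset (N × D × List N))
  (P : PRLG (n + 1) D) (h : D → List A) (fQ : Fintype (St P)) (fG : Fintype (Sk N P))
  (fR : Fintype (Rl rules P)), 1 ≤ n → P.Strict → ∀ w : List A,
    w ∈ (mach S rules P h fQ fG fR).lang n → w ∈ Img {v | GD rules [S] v} P.lang h

/-- Piece B3c: completeness of the machine. -/
def S_B3c : Prop := ∀ (A D N : Type) (n : ℕ) (S : N) (rules : Finset (N × D × List N))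
  (P : PRLG (n + 1) D) (h : D → List A) (fQ : Fintype (St P)) (fG : Fintype (Sk N P))
  (fR : Fintype (Rl rules P)), 1 ≤ n → P.Strict → ∀ w : List A,
    w ∈ Img {v | GD rules [S] v} P.lang h → w ∈ (mach S rules P h fQ fG fR).lang n

end Pool.Agent.R652.SR
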