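import Mathlib
import Pool.Agent.R652.SR.Defs

set_option autoImplicit false

namespace Pool.Agent.R652.SR

/-- Piece B3f: the machine is finite. -/
theorem t_B3f : S_B3f := by
  intro D N n rules P hN
  haveI hfin : ∀ i, Finite (P.N i) := fun i => @Finite.of_fintype _ (P.finN i)
  haveI hT : Finite (Tup P) := Pi.finite
  haveI hsig : Finite (Σ i, P.N i) := inferInstance
  have hSt : Finite (St P) := by
    rw [← Set.finite_univ_iff]
    refine Set.Finite.subset (((Set.finite_singleton (St.q0 : St P)).union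
      ((Set.finite_singleton (St.qt : St P)).union (Set.finite_singleton (St.fin : St P)))).union
      ((Set.finite_range (fun x : Tup P × (Σ i, P.N i) => (St.run x.1 x.2.1 x.2.2 : St P))).union
        (Set.finite_range (fun x : Tup P × Fin (n + 1) => (St.done x.1 x.2 : St P))))) ?_
    intro s _
    cases s with
    | q0 => exact Or.inl (Or.inl rfl)
    | qt => exact Or.inl (Or.inr (Or.inl rfl))
    | fin => exact Or.inl (Or.inr (Or.inr rfl))
    | run τ i X => exact Or.inr (Or.inl ⟨(τ, ⟨i, X⟩), rfl⟩)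
    | done τ i => exact Or.inr (Or.inr ⟨(τ, i), rfl⟩)
  have hSk : Finite (Sk N P) := by
    rw [← Set.finite_univ_iff]
    refine Set.Finite.subset (((Set.finite_singleton (Sk.z0 : Sk N P)).union
      (Set.finite_singleton (Sk.bot : Sk N P))).union
      ((Set.finite_range (fun x : N => (Sk.nt x : Sk N P))).union
        (Set.finite_range (fun x : Tup P × Fin n => (Sk.info x.1 x.2 : Sk N P))))) ?_
    intro s _
    cases s with
    | z0 => exact Or.inl (Or.inl rfl)
    | bot => exact Or.inl (Or.inr rfl)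
    | nt X => exact Or.inr (Or.inl ⟨X, rfl⟩)
    | info τ i => exact Or.inr (Or.inr ⟨(τ, i), rfl⟩)
  refine ⟨hSt, hSk, ?_⟩
  rw [← Set.finite_univ_iff]
  refine Set.Finite.subset (((Set.finite_range
      (fun x : {τ : Tup P // τ ∈ P.start} => (Rl.init x.1 x.2 : Rl rules P))).union
    ((Set.finite_range (fun x : {x : Tup P × (Σ i, ({p // p ∈ P.step i} × {g // g ∈ rules})) //
        x.2.2.1.1.2.1 = [x.2.2.2.1.2.1]} =>
        (Rl.letter x.1.1 x.1.2.1 x.1.2.2.1 x.1.2.2.2 x.2 : Rl rules P))).union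
    (Set.finite_range (fun x : {x : Tup P × (Σ i, ({p // p ∈ P.fin i} × {g // g ∈ rules})) //
        x.2.2.1.1.2 = [x.2.2.2.1.2.1]} =>
        (Rl.last x.1.1 x.1.2.1 x.1.2.2.1 x.1.2.2.2 x.2 : Rl rules P))))).union
    ((Set.finite_range (fun x : Tup P × Fin n × Sk N P =>
        (Rl.endB x.1 x.2.1 x.2.2 : Rl rules P))).union
    ((Set.finite_range (fun x : Tup P × Fin n => (Rl.mark x.1 x.2 : Rl rules P))).union
    (Set.finite_range (fun x : Tup P => (Rl.endF x : Rl rules P)))))) ?_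
  intro s _
  cases s with
  | init τ hτ => exact Or.inl (Or.inl ⟨⟨τ, hτ⟩, rfl⟩)
  | letter τ i p g hg => exact Or.inl (Or.inr (Or.inl ⟨⟨(τ, ⟨i, (p, g)⟩), hg⟩, rfl⟩))
  | last τ i p g hg => exact Or.inl (Or.inr (Or.inr ⟨⟨(τ, ⟨i, (p, g)⟩), hg⟩, rfl⟩))
  | endB τ i Z => exact Or.inr (Or.inl ⟨(τ, i, Z), rfl⟩)
  | mark τ i => exact Or.inr (Or.inr (Or.inl ⟨(τ, i), rfl⟩))
  | endF τ => exact Or.inr (Or.inr (Or.inr ⟨τ, rfl⟩))

end Pool.Agent.R652.SR
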