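import Pool.Agent.R652.SR.Defs

set_option autoImplicit false

/-!
# Piece B3s: soundness of the machine
-/

namespace Pool.Agent.R652.SR

namespace B3S

theorem run_cons {A : Type} {M : SPDA A} {r : M.Ru} {μ : List M.Ru} {s : List M.G} {q : M.Q}
    {s' : List M.G} {q' : M.Q} (h : M.Run (r :: μ) s q s' q') :
    ∃ s0, s = M.top r :: s0 ∧ q = M.src r ∧ M.Run μ (M.push r ++ s0) (M.tgt r) s' q' := by
  cases h with
  | cons r s h => exact ⟨s, rfl, rfl, h⟩

theorem run_nil {A : Type} {M : SPDA A} {s : List M.G} {q : M.Q}
    {s' : List M.G} {q' : M.Q} (h : M.Run [] s q s' q') : s = s' ∧ q = q' := by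
  cases h with
  | nil s q => exact ⟨rfl, rfl⟩

/-- concatenation of the words `U i, ..., U n` -/
def V {D : Type} (U : ℕ → List D) (n i : ℕ) : List D :=
  ((List.range' i (n + 1 - i)).map U).flatten

theorem V_succ {D : Type} (U : ℕ → List D) {n i : ℕ} (h : i ≤ n) :
    V U n i = U i ++ V U n (i + 1) := by
  unfold V
  obtain ⟨m, rfl⟩ := Nat.exists_eq_add_of_le h
  have e1 : i + m + 1 - i = m + 1 := by omega
  have e2 : i + m + 1 - (i + 1) = m := by omega
  rw [e1, e2, List.range'_succ]
  simp

theorem V_end {D : Type} (U : ℕ → List D) (n : ℕ) : V U n (n + 1) = [] := by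
  simp [V]

theorem V_congr {D : Type} {U U' : ℕ → List D} {n i : ℕ} (h : ∀ m, i ≤ m → U m = U' m) :
    V U n i = V U' n i := by
  unfold V
  congr 1
  apply List.map_congr_left
  intro m hm
  rw [List.mem_range'_1] at hm
  exact h m hm.1

theorem sum_split (T : ℕ → ℕ) {i j : ℕ} (h : i < j) :
    ∑ m ∈ Finset.Ico i j, (T m + 2) = (T i + 2) + ∑ m ∈ Finset.Ico (i + 1) j, (T m + 2) :=
  Finset.sum_eq_sum_Ico_succ_bot h _

theorem sum_upd (T : ℕ → ℕ) (i t j : ℕ) :
    ∑ m ∈ Finset.Ico (i + 1) j, (Function.update T i t m + 2) =
      ∑ m ∈ Finset.Ico (i + 1) j, (T m + 2) := by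
  apply Finset.sum_congr rfl
  intro m hm
  rw [Finset.mem_Ico] at hm
  rw [Function.update_of_ne (by omega)]

theorem V_upd {D : Type} (U : ℕ → List D) (n i : ℕ) (x : List D) :
    V (Function.update U i x) n (i + 1) = V U n (i + 1) :=
  V_congr fun m hm => by rw [Function.update_of_ne (by omega)]

section
variable {A D N : Type} {n : ℕ} (S : N) (rules : Finset (N × D × List N)) (P : PRLG (n + 1) D)
  (h : D → List A) (fQ : Fintype (St P)) (fG : Fintype (Sk N P)) (fR : Fintype (Rl rules P))

/-- Typed form of the computations of the machine. -/
def RunM (μ : List (Rl rules P)) (s : List (Sk N P)) (q : St P) : Prop :=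
  (mach S rules P h fQ fG fR).Run μ s q [] St.fin

/-- typed top symbol -/
def topM (r : Rl rules P) : Sk N P := (mach S rules P h fQ fG fR).top r

/-- typed source -/
def srcM (r : Rl rules P) : St P := (mach S rules P h fQ fG fR).src r

/-- typed push -/
def pushM (r : Rl rules P) : List (Sk N P) := (mach S rules P h fQ fG fR).push r

/-- typed input -/
def inpM (r : Rl rules P) : List A := (mach S rules P h fQ fG fR).inp r

/-- typed target -/
def tgtM (r : Rl rules P) : St P := (mach S rules P h fQ fG fR).tgt r

theorem runM_cons {r : Rl rules P} {μ : List (Rl rules P)} {s : List (Sk N P)} {q : St P}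
    (hr : RunM S rules P h fQ fG fR (r :: μ) s q) :
    ∃ s0 : List (Sk N P), s = topM S rules P h fQ fG fR r :: s0 ∧
      q = srcM S rules P h fQ fG fR r ∧
      RunM S rules P h fQ fG fR μ (pushM S rules P h fQ fG fR r ++ s0)
        (tgtM S rules P h fQ fG fR r) := by
  obtain ⟨s0, h1, h2, h3⟩ := run_cons (M := mach S rules P h fQ fG fR) hr
  exact ⟨s0, h1, h2, h3⟩

theorem runM_nil {s : List (Sk N P)} {q : St P}
    (hr : RunM S rules P h fQ fG fR [] s q) : q = St.fin :=
  (run_nil (M := mach S rules P h fQ fG fR) hr).2

/-- The data extracted from the end of a computation. -/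
def Good (τ : Tup P) (i : Fin (n + 1)) (X : P.N i) (α : List N) (μ : List (Rl rules P)) : Prop :=
  ∃ (T : ℕ → ℕ) (U : ℕ → List D), P.Der i (T i) X (U i) ∧
    (∀ j : Fin (n + 1), i < j → P.Der j (T j) (τ j) (U j)) ∧ GD rules α (V U n i) ∧
    μ.flatMap (inpM S rules P h fQ fG fR) = (V U n i).flatMap h ∧
    μ.length + 1 = ∑ m ∈ Finset.Ico (i : ℕ) (n + 1), (T m + 2) ∧
    ∀ (p : ℕ) (r : Rl rules P) (l : ℕ), μ[p]? = some r → r.lev = some l →
      (i : ℕ) < l ∧ l ≤ n ∧ p + 1 = ∑ m ∈ Finset.Ico (i : ℕ) l, (T m + 2)

theorem stack_inv {α : List N} {Z : Sk N P} {s : List (Sk N P)}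
    (hs : α.map Sk.nt ++ [Sk.bot] = Z :: s) :
    (∃ X α', α = X :: α' ∧ Z = .nt X ∧ s = α'.map Sk.nt ++ [Sk.bot]) ∨
      (α = [] ∧ Z = .bot ∧ s = []) := by
  cases α with
  | nil =>
    right
    simp only [List.map_nil, List.nil_append, List.cons.injEq] at hs
    exact ⟨rfl, hs.1.symm, hs.2.symm⟩
  | cons X α' =>
    left
    simp only [List.map_cons, List.cons_append, List.cons.injEq] at hs
    exact ⟨X, α', rfl, hs.1.symm, hs.2.symm⟩

theorem good_of_run (τ : Tup P) : ∀ (len : ℕ) (μ : List (Rl rules P)) (α : List N)
    (i : Fin (n + 1)) (X : P.N i), μ.length ≤ len →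
    RunM S rules P h fQ fG fR μ (α.map Sk.nt ++ [Sk.bot]) (St.run τ i X) →
    Good S rules P h fQ fG fR τ i X α μ := by
  intro len
  induction len with
  | zero =>
    intro μ α i X hlen hr
    have : μ = [] := List.eq_nil_of_length_eq_zero (Nat.le_zero.1 hlen)
    subst this
    have h2 := runM_nil S rules P h fQ fG fR hr
    cases h2
  | succ len ih =>
    intro μ α i X hlen hr
    cases μ with
    | nil =>
      have h2 := runM_nil S rules P h fQ fG fR hr
      cases h2
    | cons r μ =>
      obtain ⟨s0, hs, hq, hr'⟩ := runM_cons S rules P h fQ fG fR hr
      cases r with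
      | init τ' hτ' => cases hq
      | endB τ' i' Z => cases hq
      | mark τ' i' => cases hq
      | endF τ' => cases hq
      | letter τ' i' p g hg =>
        change St.run τ i X = St.run τ' i' p.1.1 at hq
        cases hq
        change α.map Sk.nt ++ [Sk.bot] = Sk.nt g.1.1 :: s0 at hs
        rcases stack_inv P hs with ⟨Y, α', rfl, hY, rfl⟩ | ⟨-, hY, -⟩
        swap
        · cases hY
        have hY' : g.1.1 = Y := by injection hY
        subst hY'
        change RunM S rules P h fQ fG fR μ (g.1.2.2.map Sk.nt ++ (α'.map Sk.nt ++ [Sk.bot]))
          (St.run τ i p.1.2.2) at hr'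
        rw [← List.append_assoc, ← List.map_append] at hr'
        obtain ⟨T, U, h1, h2, h3, h4, h5, h6⟩ := ih μ _ i p.1.2.2 (by simpa using hlen) hr'
        refine ⟨Function.update T i (T i + 1), Function.update U i (g.1.2.1 :: U i), ?_, ?_, ?_, ?_, ?_, ?_⟩
        · rw [Function.update_self, Function.update_self]
          have h7 := PRLG.Der.step (P := P) (i := i) p.1.1 p.1.2.1 p.1.2.2 p.2 h1
          rw [hg] at h7
          exact h7
        · intro j hj
          have hne : (j : ℕ) ≠ (i : ℕ) := by
            have : (i : ℕ) < (j : ℕ) := hj
            omega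
          rw [Function.update_of_ne hne, Function.update_of_ne hne]
          exact h2 j hj
        · rw [V_succ _ (Nat.lt_succ_iff.1 i.2), Function.update_self, V_upd]
          rw [V_succ _ (Nat.lt_succ_iff.1 i.2)] at h3
          exact GD.cons g.1.1 g.1.2.1 g.1.2.2 α' g.2 h3
        · rw [V_succ _ (Nat.lt_succ_iff.1 i.2), Function.update_self, V_upd]
          rw [V_succ _ (Nat.lt_succ_iff.1 i.2)] at h4
          rw [List.flatMap_cons, h4, List.cons_append, List.flatMap_cons]
          rfl
        · rw [sum_split _ i.2, Function.update_self, sum_upd]
          rw [sum_split _ i.2] at h5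
          rw [List.length_cons]
          omega
        · intro p' r l hp hl
          cases p' with
          | zero =>
            simp only [List.getElem?_cons_zero, Option.some.injEq] at hp
            rw [← hp] at hl
            cases hl
          | succ p' =>
            rw [List.getElem?_cons_succ] at hp
            obtain ⟨h7, h8, h9⟩ := h6 p' r l hp hl
            refine ⟨h7, h8, ?_⟩
            rw [sum_split _ h7, Function.update_self, sum_upd]
            rw [sum_split _ h7] at h9
            omega
      | last τ' i' p g hg =>
        change St.run τ i X = St.run τ' i' p.1.1 at hq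
        cases hq
        change α.map Sk.nt ++ [Sk.bot] = Sk.nt g.1.1 :: s0 at hs
        rcases stack_inv P hs with ⟨Y, α', rfl, hY, rfl⟩ | ⟨-, hY, -⟩
        swap
        · cases hY
        have hY' : g.1.1 = Y := by injection hY
        subst hY'
        change RunM S rules P h fQ fG fR μ (g.1.2.2.map Sk.nt ++ (α'.map Sk.nt ++ [Sk.bot]))
          (St.done τ i) at hr'
        rw [← List.append_assoc, ← List.map_append] at hr'
        cases μ with
        | nil =>
          have h2 := runM_nil S rules P h fQ fG fR hr'
          cases h2
        | cons r2 μ2 =>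
          obtain ⟨s2, hs2, hq2, hr2⟩ := runM_cons S rules P h fQ fG fR hr'
          cases r2 with
          | init τ' hτ' => cases hq2
          | letter τ' i' p g hg => cases hq2
          | last τ' i' p g hg => cases hq2
          | mark τ' i' => cases hq2
          | endF τ2 =>
            change St.done τ i = St.done τ2 (Fin.last n) at hq2
            cases hq2
            change (g.1.2.2 ++ α').map Sk.nt ++ [Sk.bot] = Sk.bot :: s2 at hs2
            rcases stack_inv P hs2 with ⟨Y, α2, -, hY, -⟩ | ⟨hα, -, rfl⟩
            · cases hY
            change RunM S rules P h fQ fG fR μ2 [] St.fin at hr2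
            have hμ2 : μ2 = [] := by
              cases μ2 with
              | nil => rfl
              | cons r3 μ3 =>
                obtain ⟨s3, hs3, -, -⟩ := runM_cons S rules P h fQ fG fR hr2
                cases hs3
            subst hμ2
            refine ⟨fun _ => 1, fun _ => [g.1.2.1], ?_, ?_, ?_, ?_, ?_, ?_⟩
            · have h7 := PRLG.Der.fin (P := P) (i := Fin.last n) p.1.1 p.1.2 p.2
              rw [hg] at h7
              exact h7
            · intro j hj
              exact absurd hj (not_lt.2 (Fin.le_last j))
            · rw [Fin.val_last, V_succ _ le_rfl, V_end]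
              have h7 := GD.cons (rules := rules) g.1.1 g.1.2.1 g.1.2.2 α' (w := []) g.2
                (by rw [hα]; exact GD.nil)
              exact h7
            · rw [Fin.val_last, V_succ _ le_rfl, V_end]
              simp only [List.flatMap_cons, List.flatMap_nil, List.append_nil]
              show h g.1.2.1 ++ [] = h g.1.2.1
              rw [List.append_nil]
            · rw [Fin.val_last, sum_split _ (Nat.lt_succ_self n)]
              simp
            · intro p' r l hp hl
              match p', hp with
              | 0, hp =>
                simp only [List.getElem?_cons_zero, Option.some.injEq] at hp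
                rw [← hp] at hl
                cases hl
              | 1, hp =>
                simp only [List.getElem?_cons_succ, List.getElem?_cons_zero, Option.some.injEq] at hp
                rw [← hp] at hl
                cases hl
              | p' + 2, hp => simp at hp
          | endB τ2 i2 Z =>
            change St.done τ i = St.done τ2 i2.castSucc at hq2
            cases hq2
            change (g.1.2.2 ++ α').map Sk.nt ++ [Sk.bot] = Z :: s2 at hs2
            change RunM S rules P h fQ fG fR μ2 (Sk.info τ i2 :: (Z :: s2)) St.qt
              at hr2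
            rw [← hs2] at hr2
            cases μ2 with
            | nil =>
              have h2 := runM_nil S rules P h fQ fG fR hr2
              cases h2
            | cons r3 μ3 =>
              obtain ⟨s3, hs3, hq3, hr3⟩ := runM_cons S rules P h fQ fG fR hr2
              cases r3 with
              | init τ' hτ' => cases hq3
              | letter τ' i' p g hg => cases hq3
              | last τ' i' p g hg => cases hq3
              | endB τ' i' Z => cases hq3
              | endF τ' => cases hq3
              | mark τ3 i3 =>
                change Sk.info τ i2 :: ((g.1.2.2 ++ α').map Sk.nt ++ [Sk.bot]) =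
                  Sk.info τ3 i3 :: s3 at hs3
                rw [List.cons.injEq] at hs3
                obtain ⟨hs4, rfl⟩ := hs3
                have hs5 : τ3 = τ ∧ i3 = i2 := by
                  injection hs4 with a b
                  exact ⟨a.symm, b.symm⟩
                obtain ⟨rfl, rfl⟩ := hs5
                change RunM S rules P h fQ fG fR μ3 ((g.1.2.2 ++ α').map Sk.nt ++ [Sk.bot])
                  (St.run τ3 i3.succ (τ3 i3.succ)) at hr3
                obtain ⟨T, U, h1, h2, h3, h4, h5, h6⟩ := ih μ3 _ i3.succ (τ3 i3.succ)
                  (by simp only [List.length_cons] at hlen; omega) hr3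
                have hval : ((i3.castSucc : Fin (n + 1)) : ℕ) = (i3 : ℕ) := rfl
                have hval' : ((i3.succ : Fin (n + 1)) : ℕ) = (i3 : ℕ) + 1 := rfl
                rw [hval'] at h1 h3 h4 h5
                have hin : (i3 : ℕ) < n := i3.2
                refine ⟨Function.update T i3 1, Function.update U i3 [g.1.2.1], ?_, ?_, ?_, ?_, ?_, ?_⟩
                · rw [hval, Function.update_self, Function.update_self]
                  have h7 := PRLG.Der.fin (P := P) (i := i3.castSucc) p.1.1 p.1.2 p.2
                  rw [hg] at h7
                  exact h7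
                · intro j hj
                  have hj' : (i3 : ℕ) < (j : ℕ) := hj
                  have hne : (j : ℕ) ≠ (i3 : ℕ) := by omega
                  rw [Function.update_of_ne hne, Function.update_of_ne hne]
                  by_cases hjj : j = i3.succ
                  · subst hjj
                    rw [hval']
                    exact h1
                  · apply h2 j
                    rw [Fin.lt_def, hval']
                    have : (j : ℕ) ≠ (i3 : ℕ) + 1 := fun hh => hjj (Fin.ext hh)
                    omega
                · rw [hval, V_succ _ hin.le, Function.update_self, V_upd]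
                  exact GD.cons g.1.1 g.1.2.1 g.1.2.2 α' g.2 h3
                · rw [hval, V_succ _ hin.le, Function.update_self, V_upd]
                  rw [List.flatMap_cons, List.flatMap_cons, List.flatMap_cons, h4,
                    List.cons_append, List.nil_append, List.flatMap_cons]
                  rfl
                · rw [hval, sum_split _ (by omega), Function.update_self, sum_upd]
                  simp only [List.length_cons]
                  omega
                · intro p' r l hp hl
                  rw [hval]
                  match p', hp with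
                  | 0, hp =>
                    simp only [List.getElem?_cons_zero, Option.some.injEq] at hp
                    rw [← hp] at hl
                    cases hl
                  | 1, hp =>
                    simp only [List.getElem?_cons_succ, List.getElem?_cons_zero, Option.some.injEq]
                      at hp
                    rw [← hp] at hl
                    cases hl
                  | 2, hp =>
                    simp only [List.getElem?_cons_succ, List.getElem?_cons_zero, Option.some.injEq]
                      at hp
                    rw [← hp] at hl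
                    have hl' : (i3 : ℕ) + 1 = l := by
                      change some ((i3 : ℕ) + 1) = some l at hl
                      exact Option.some.inj hl
                    subst hl'
                    refine ⟨Nat.lt_succ_self _, hin, ?_⟩
                    rw [sum_split _ (Nat.lt_succ_self _), Function.update_self]
                    simp
                  | p' + 3, hp =>
                    simp only [List.getElem?_cons_succ] at hp
                    obtain ⟨h7, h8, h9⟩ := h6 p' r l hp hl
                    rw [hval'] at h7 h9
                    refine ⟨by omega, h8, ?_⟩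
                    rw [sum_split _ (by omega), Function.update_self, sum_upd]
                    omega

end

theorem flat_get {β : Type} (k : ℕ) (hk : 1 ≤ k) : ∀ (m : ℕ) (u : Fin m → List β)
    (_ : ∀ j, (u j).length = k) (j : Fin m),
    ((List.ofFn u).flatten)[(j : ℕ) * k]? = (u j).head? := by
  intro m
  induction m with
  | zero => intro u _ j; exact j.elim0
  | succ m ih =>
    intro u hu j
    rw [List.ofFn_succ, List.flatten_cons]
    refine Fin.cases ?_ (fun j' => ?_) j
    · have h0 := hu 0
      simp only [Fin.val_zero, zero_mul]
      cases hc : u 0 with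
      | nil => rw [hc, List.length_nil] at h0; omega
      | cons a l => simp
    · have h0 := hu 0
      have e : ((j'.succ : Fin (m + 1)) : ℕ) * k = k + (j' : ℕ) * k := by
        rw [Fin.val_succ]; ring
      rw [e, List.getElem?_append_right (by rw [h0]; omega), h0, Nat.add_sub_cancel_left]
      exact ih (fun a => u a.succ) (fun a => hu a.succ) j'

theorem flat_len {β : Type} (k : ℕ) : ∀ (m : ℕ) (u : Fin m → List β)
    (_ : ∀ j, (u j).length = k), ((List.ofFn u).flatten).length = m * k := by
  intro m
  induction m with
  | zero => intro u _; simp
  | succ m ih =>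
    intro u hu
    rw [List.ofFn_succ, List.flatten_cons, List.length_append, hu 0,
      ih (fun a => u a.succ) (fun a => hu a.succ)]
    ring

end B3S

open B3S

theorem t_B3s : S_B3s := by
  intro A D N n S rules P h fQ fG fR hn _ w hw
  have hw' : ∃ μ : List (Rl rules P), RunM S rules P h fQ fG fR μ [Sk.z0] St.q0 ∧
      Split n {r : Rl rules P | tgtM S rules P h fQ fG fR r = St.qt}
        (fun r s : Rl rules P => ∃ j, r.lev = some j ∧ s.lev = some (j + 1)) μ ∧
      w = μ.flatMap (inpM S rules P h fQ fG fR) := by
    obtain ⟨μ, f, hf, hr, hsp, he⟩ := hw
    have hf' : f = St.fin := hf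
    subst hf'
    exact ⟨μ, hr, hsp, he⟩
  obtain ⟨μ, hr, hsp, rfl⟩ := hw'
  cases μ with
  | nil =>
    have h2 := runM_nil S rules P h fQ fG fR hr
    cases h2
  | cons r μ' =>
    obtain ⟨s0, hs, hq, hr'⟩ := runM_cons S rules P h fQ fG fR hr
    cases r with
    | letter τ' i' p g hg => cases hq
    | last τ' i' p g hg => cases hq
    | endB τ' i' Z => cases hq
    | mark τ' i' => cases hq
    | endF τ' => cases hq
    | init τ hτ =>
      change [Sk.z0] = Sk.z0 :: s0 at hs
      have hs0 : s0 = [] := by
        rw [List.cons.injEq] at hs
        exact hs.2.symm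
      subst hs0
      change RunM S rules P h fQ fG fR μ' ([S].map Sk.nt ++ [Sk.bot])
        (St.run τ 0 (τ 0)) at hr'
      obtain ⟨T, U, h1, h2, h3, h4, h5, h6⟩ :=
        good_of_run S rules P h fQ fG fR τ μ'.length μ' [S] 0 (τ 0) le_rfl hr'
      obtain ⟨k, u, hk, hu, hμ, -, hR⟩ := hsp
      have hz : ((0 : Fin (n + 1)) : ℕ) = 0 := rfl
      rw [hz] at h1 h3 h4 h5
      have hget := flat_get k hk (n + 1) u hu
      rw [← hμ] at hget
      have hlen := flat_len k (n + 1) u hu
      rw [← hμ] at hlen
      have hlev : ∀ j : ℕ, j ≤ n → ∃ r : Rl rules P,
          (Rl.init τ hτ :: μ')[j * k]? = some r ∧ r.lev = some j := by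
        intro j
        induction j with
        | zero =>
          intro _
          refine ⟨Rl.init τ hτ, ?_, rfl⟩
          simp
        | succ j ih =>
          intro hj
          obtain ⟨r, hr1, hr2⟩ := ih (by omega)
          obtain ⟨r', s, ha, hb, l, hl1, hl2⟩ := hR ⟨j, by omega⟩
          have hc := hget (⟨j, by omega⟩ : Fin n).castSucc
          have hd := hget (⟨j, by omega⟩ : Fin n).succ
          rw [ha] at hc
          rw [hb] at hd
          change (Rl.init τ hτ :: μ')[j * k]? = some r' at hc
          change (Rl.init τ hτ :: μ')[(j + 1) * k]? = some s at hd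
          rw [hr1, Option.some.injEq] at hc
          subst hc
          change r.lev = some l at hl1
          rw [hr2, Option.some.injEq] at hl1
          subst hl1
          exact ⟨s, hd, hl2⟩
      have hpos : ∀ j : ℕ, j ≤ n + 1 → j * k = ∑ m ∈ Finset.Ico 0 j, (T m + 2) := by
        intro j hj
        rcases Nat.eq_zero_or_pos j with hj0 | hj0
        · subst hj0; simp
        rcases Nat.lt_or_ge n j with hj1 | hj1
        · have : j = n + 1 := by omega
          subst this
          rw [← h5, ← hlen, List.length_cons]
        · obtain ⟨r, hr1, hr2⟩ := hlev j hj1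
          have hjk : 1 ≤ j * k := Nat.mul_pos hj0 hk
          obtain ⟨q, hq⟩ := Nat.exists_eq_add_of_le hjk
          rw [hq, add_comm 1 q, List.getElem?_cons_succ] at hr1
          obtain ⟨-, -, h9⟩ := h6 q r j hr1 hr2
          rw [hz] at h9
          omega
      have hT : ∀ j : ℕ, j ≤ n → T j = k - 2 := by
        intro j hj
        have a1 := hpos j (by omega)
        have a2 := hpos (j + 1) (by omega)
        rw [Finset.sum_Ico_succ_top (Nat.zero_le j), ← a1, add_mul, one_mul] at a2
        omega
      have hV : V U n 0 = (List.ofFn (fun i : Fin (n + 1) => U i)).flatten := by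
        unfold V
        congr 1
        apply List.ext_getElem
        · simp
        · intro a b c
          rw [List.getElem_map, List.getElem_range', List.getElem_ofFn]
          simp only [zero_add, one_mul]
      refine ⟨V U n 0, h3, ⟨τ, hτ, k - 2, fun i => U i, ?_, hV⟩, ?_⟩
      · intro i
        have hi := hT i (Nat.lt_succ_iff.1 i.2)
        rcases Fin.eq_zero_or_eq_succ i with hi0 | ⟨i', hi'⟩
        · subst hi0
          rw [hz] at hi
          rw [← hi]
          exact h1
        · rw [← hi]
          apply h2 i
          rw [hi']
          exact Fin.succ_pos i'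
      · rw [List.flatMap_cons, h4]
        rfl

end Pool.Agent.R652.SR
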