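import Pool.Agent.R652.SR.Defs2

set_option autoImplicit false

namespace Pool.Agent.R652.SR

namespace CIAux

open Classical in
/-- the grammar of all words: component `0` writes the word, the others write nothing -/
noncomputable def all (A : Type) [Fintype A] (n : ℕ) : PRLG (n + 1) A where
  N := fun _ => Unit
  finN := fun _ => inferInstance
  start := Set.univ
  step := fun i => if i = 0 then Finset.univ.image (fun a : A => ((), [a], ())) else {((), [], ())}
  fin := fun _ => {((), [])}

theorem mem_fin {A : Type} [Fintype A] {n : ℕ} (i : Fin (n + 1)) :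
    (((), []) : (all A n).N i × List A) ∈ (all A n).fin i :=
  Finset.mem_singleton_self (((), []) : Unit × List A)

theorem mem_step0 {A : Type} [Fintype A] {n : ℕ} (a : A) :
    (((), [a], ()) : (all A n).N 0 × List A × (all A n).N 0) ∈ (all A n).step 0 := by
  classical
  change (((), [a], ()) : Unit × List A × Unit) ∈
    (if (0 : Fin (n + 1)) = 0 then Finset.image (fun a : A => ((), [a], ())) Finset.univ
      else {((), [], ())})
  rw [if_pos rfl]
  exact Finset.mem_image.2 ⟨a, Finset.mem_univ a, rfl⟩

theorem mem_step1 {A : Type} [Fintype A] {n : ℕ} {i : Fin (n + 1)} (hi : i ≠ 0) :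
    (((), [], ()) : (all A n).N i × List A × (all A n).N i) ∈ (all A n).step i := by
  classical
  change (((), [], ()) : Unit × List A × Unit) ∈
    (if i = 0 then Finset.image (fun a : A => ((), [a], ())) Finset.univ
      else {((), [], ())})
  rw [if_neg hi]
  exact Finset.mem_singleton_self _

theorem der_zero {A : Type} [Fintype A] {n : ℕ} (w : List A) :
    (all A n).Der 0 (w.length + 1) () w := by
  induction w with
  | nil => exact PRLG.Der.fin (P := all A n) (i := 0) _ [] (mem_fin 0)
  | cons a w ih =>
    exact PRLG.Der.step (P := all A n) (i := 0) _ [a] _ (mem_step0 a) ih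

theorem der_ne {A : Type} [Fintype A] {n : ℕ} {i : Fin (n + 1)} (hi : i ≠ 0) (t : ℕ) :
    (all A n).Der i (t + 1) () [] := by
  induction t with
  | zero => exact PRLG.Der.fin (P := all A n) (i := i) _ [] (mem_fin i)
  | succ t ih =>
    exact PRLG.Der.step (P := all A n) (i := i) _ [] _ (mem_step1 hi) ih

theorem flat {A : Type} {n : ℕ} (w : List A) :
    (List.ofFn (fun i : Fin (n + 1) => if i = 0 then w else [])).flatten = w := by
  rw [List.ofFn_succ]
  simp [Fin.succ_ne_zero]

end CIAux

theorem t_CI : S_CI := by
  intro A _ n L hL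
  refine ⟨A, inferInstance, L, CIAux.all A n, fun a => [a], hL, ?_⟩
  ext w
  constructor
  · intro hw
    refine ⟨w, hw, ⟨fun _ => (), trivial, w.length + 1, fun i => if i = 0 then w else [],
      fun i => ?_, (CIAux.flat w).symm⟩, by simp⟩
    by_cases hi : i = 0
    · subst hi
      simpa using CIAux.der_zero w
    · simpa [hi] using CIAux.der_ne hi w.length
  · rintro ⟨v, hv, -, rfl⟩
    simpa using hv

end Pool.Agent.R652.SR
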