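import Pool.Agent.R652.SR.Defs

set_option autoImplicit false

/-!
# Statements comparing `FSPDA_n` with the context-free and with the decidable languages
-/

namespace Pool.Agent.R652.SR

/-- The commutative (Parikh) image of a language. -/
def Par {A : Type} [DecidableEq A] (L : Language A) : Set (A → ℕ) :=
  {v | ∃ w ∈ L, ∀ a, v a = w.count a}

/-- Piece PK: Parikh's theorem. -/
def S_PK : Prop := ∀ (D : Type) (_ : Fintype D) (_ : DecidableEq D) (K : Language D),
  K.IsContextFree → IsSemilinearSet (Par K)

/-- Piece SM: the languages in question have semilinear commutative image. -/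
def S_SM : Prop := ∀ (A : Type) (_ : Fintype A) (_ : DecidableEq A) (n : ℕ) (L : Language A),
  HCPs (n + 1) L → IsSemilinearSet (Par L)

/-- The language of the words of length a power of two. -/
def Pow2 : Language Unit := {w | ∃ k : ℕ, w.length = 2 ^ k}

/-- Piece XE: the decidable language `Pow2` has no semilinear commutative image. -/
def S_XE : Prop := ComputablePred (fun w : List Unit => w ∈ Pow2) ∧ ¬ IsSemilinearSet (Par Pow2)

/-- Piece CI: context-free languages are covered. -/
def S_CI : Prop := ∀ (A : Type) (_ : Fintype A) (n : ℕ) (L : Language A), L.IsContextFree →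
  HCP (n + 1) L

/-- The language `a^k b^k c^k`, `k ≥ 1`. -/
def ABC : Language (Fin 3) :=
  {w | ∃ k : ℕ, 1 ≤ k ∧ w = List.replicate k 0 ++ List.replicate k 1 ++ List.replicate k 2}

/-- Piece NC: a language which is not context-free is covered. -/
def S_NC : Prop := ¬ ABC.IsContextFree ∧ ∀ n : ℕ, 1 ≤ n → HCP (n + 1) ABC

end Pool.Agent.R652.SR
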