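import Pool.Agent.R652.SR.Defs2

set_option autoImplicit false

namespace Pool.Agent.R652.SR

theorem der_len {m : ℕ} {T : Type} {P : PRLG m T} (hP : P.Strict) {i : Fin m} {t : ℕ} {X : P.N i}
    {u : List T} (h : P.Der i t X u) : u.length = t ∧ 1 ≤ t := by
  induction h with
  | fin X x hx => exact ⟨hP.2 _ _ hx, le_rfl⟩
  | step X x Y hx _ ih =>
    have := hP.1 _ _ hx
    simp only at this
    exact ⟨by rw [List.length_append, this, ih.1, add_comm], by omega⟩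

theorem lang_ne {n : ℕ} {T : Type} {P : PRLG (n + 1) T} (hP : P.Strict) {v : List T}
    (hv : v ∈ P.lang) : v ≠ [] := by
  obtain ⟨X, -, t, u, hu, rfl⟩ := hv
  intro h0
  rw [List.flatten_eq_nil_iff] at h0
  have h1 : u 0 = [] := h0 (u 0) ((List.mem_ofFn).2 ⟨0, rfl⟩)
  have h2 := der_len hP (hu 0)
  rw [h1] at h2
  simp at h2
  omega

/-- The characterisation. -/
theorem main_of (hA1 : S_A1) (hA2 : S_A2) (hB1 : S_B1) (hB2a : S_B2a) (hB2b : S_B2b)
    (hB3f : S_B3f) (hB3s : S_B3s) (hB3c : S_B3c) {A : Type} {n : ℕ} (hn : 1 ≤ n)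
    (L : Language A) : [FSPDA n L, HCP (n + 1) L, HCPs (n + 1) L].TFAE := by
  have h13 : FSPDA n L → HCPs (n + 1) L := by
    rintro ⟨M, rfl⟩
    obtain ⟨P, hP, hPl⟩ := hA2 M.Ru M.finRu n {r | M.tgt r = M.qt} M.R
    refine ⟨M.Ru, M.finRu, _, P, M.inp, hA1 A M, hP, ?_⟩
    ext w
    constructor
    · rintro ⟨μ, f, hf, hr, hs, rfl⟩
      refine ⟨μ, ⟨f, hf, hr⟩, ?_, rfl⟩
      rw [hPl]; exact hs
    · rintro ⟨μ, ⟨f, hf, hr⟩, hs, rfl⟩
      rw [hPl] at hs
      exact ⟨μ, f, hf, hr, hs, rfl⟩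
  have h32 : HCPs (n + 1) L → HCP (n + 1) L := by
    rintro ⟨D, fD, K, P, h, hK, -, e⟩
    exact ⟨D, fD, K, P, h, hK, e⟩
  have h31 : HCPs (n + 1) L → FSPDA n L := by
    rintro ⟨D, fD, K, P, h, hK, hP, rfl⟩
    obtain ⟨g, hg, rfl⟩ := hB2a D fD K hK
    obtain ⟨N, fN, S, rules, hS⟩ := hB2b D fD g hg
    obtain ⟨f1, f2, f3⟩ := hB3f D N n rules P inferInstance
    refine ⟨mach S rules P h (Fintype.ofFinite _) (Fintype.ofFinite _) (Fintype.ofFinite _), ?_⟩
    have e : Img g.language P.lang h = Img {v | GD rules [S] v} P.lang h := by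
      ext w
      constructor
      · rintro ⟨v, h1, h2, rfl⟩
        exact ⟨v, (hS v).2 ⟨h1, lang_ne hP h2⟩, h2, rfl⟩
      · rintro ⟨v, h1, h2, rfl⟩
        exact ⟨v, ((hS v).1 h1).1, h2, rfl⟩
    rw [e]
    ext w
    exact ⟨hB3c A D N n S rules P h _ _ _ hn hP w, hB3s A D N n S rules P h _ _ _ hn hP w⟩
  tfae_have 1 → 3 := h13
  tfae_have 3 → 2 := h32
  tfae_have 2 → 3 := hB1 A (n + 1) L
  tfae_have 3 → 1 := h31
  tfae_finish

/-- Comparison with the context-free languages. -/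
theorem cf_of (hCI : S_CI) (hNC : S_NC) {n : ℕ} (hn : 1 ≤ n)
    (hT : ∀ {A : Type} (L : Language A), [FSPDA n L, HCP (n + 1) L, HCPs (n + 1) L].TFAE) :
    (∀ (A : Type) (_ : Fintype A) (L : Language A), L.IsContextFree → FSPDA n L) ∧
      ∃ L : Language (Fin 3), FSPDA n L ∧ ¬ L.IsContextFree :=
  ⟨fun A fA L h => ((hT L).out 0 1).2 (hCI A fA n L h),
    ABC, ((hT ABC).out 0 1).2 (hNC.2 n hn), hNC.1⟩

/-- Comparison with the decidable languages. -/
theorem re_of (hSM : S_SM) (hXE : S_XE) {n : ℕ}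
    (hT : ∀ {A : Type} (L : Language A), [FSPDA n L, HCP (n + 1) L, HCPs (n + 1) L].TFAE) :
    (∀ (A : Type) (_ : Fintype A) (_ : DecidableEq A) (L : Language A), FSPDA n L →
      IsSemilinearSet (Par L)) ∧
      ∃ L : Language Unit, ComputablePred (fun w : List Unit => w ∈ L) ∧ ¬ FSPDA n L := by
  have h1 : ∀ (A : Type) (_ : Fintype A) (_ : DecidableEq A) (L : Language A), FSPDA n L →
      IsSemilinearSet (Par L) := fun A fA dA L h => hSM A fA dA n L (((hT L).out 0 2).1 h)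
  exact ⟨h1, Pow2, hXE.1, fun h => hXE.2 (h1 Unit inferInstance inferInstance Pow2 h)⟩

end Pool.Agent.R652.SR
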