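import Pool.Agent.R652.SR.Defs2
import Pool.Agent.R640.CFG

set_option autoImplicit false

namespace Pool.Agent.R652.SR

namespace NC2

/-- the rules `S → a S c | b S | ε` -/
def grR : Finset (ContextFreeRule (Fin 3) Unit) :=
  {⟨(), [.terminal 0, .nonterminal (), .terminal 2]⟩,
    ⟨(), [.terminal 1, .nonterminal ()]⟩, ⟨(), []⟩}

/-- the grammar -/
def gr : ContextFreeGrammar (Fin 3) where
  NT := Unit
  initial := ()
  rules := grR

open Pool.Agent.R640.CF

theorem mr1 : (⟨(), [.terminal 0, .nonterminal (), .terminal 2]⟩ : ContextFreeRule (Fin 3) gr.NT) ∈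
    gr.rules := by
  show (⟨(), [.terminal 0, .nonterminal (), .terminal 2]⟩ : ContextFreeRule (Fin 3) Unit) ∈ grR
  simp [grR]

theorem mr2 : (⟨(), [.terminal 1, .nonterminal ()]⟩ : ContextFreeRule (Fin 3) gr.NT) ∈
    gr.rules := by
  show (⟨(), [.terminal 1, .nonterminal ()]⟩ : ContextFreeRule (Fin 3) Unit) ∈ grR
  simp [grR]

theorem mr3 : (⟨(), []⟩ : ContextFreeRule (Fin 3) gr.NT) ∈ gr.rules := by
  show (⟨(), []⟩ : ContextFreeRule (Fin 3) Unit) ∈ grR
  simp [grR]

theorem mr' {r : ContextFreeRule (Fin 3) Unit} (h : r ∈ grR) :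
    r = ⟨(), [.terminal 0, .nonterminal (), .terminal 2]⟩ ∨
    r = ⟨(), [.terminal 1, .nonterminal ()]⟩ ∨ r = ⟨(), []⟩ := by
  simpa [grR] using h

theorem mr {r : ContextFreeRule (Fin 3) gr.NT} (h : r ∈ gr.rules) :
    r = ⟨(), [.terminal 0, .nonterminal (), .terminal 2]⟩ ∨
    r = ⟨(), [.terminal 1, .nonterminal ()]⟩ ∨ r = ⟨(), []⟩ := mr' h

/-- number of occurrences of a terminal -/
def tc {N : Type} (d : Fin 3) : List (Symbol (Fin 3) N) → ℕ
  | [] => 0
  | .terminal a :: s => (if a = d then 1 else 0) + tc d s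
  | .nonterminal _ :: s => tc d s

theorem g1 {s : List (Symbol (Fin 3) gr.NT)} {w : List (Fin 3)} (h : Der gr s w) :
    w.count 0 + tc 2 s = w.count 2 + tc 0 s := by
  induction h with
  | nil => rfl
  | term a s w _ ih =>
    fin_cases a <;> simp [List.count_cons, tc] <;> omega
  | nt r s w₁ w₂ hr _ _ ih1 ih2 =>
    rcases mr hr with rfl | rfl | rfl <;> simp [List.count_append, tc] at ih1 ⊢ <;> omega

theorem g2 {w : List (Fin 3)} (h : w ∈ gr.language) : w.count 0 = w.count 2 := by
  have := g1 (mem_iff.1 h)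
  simpa [tc] using this

/-- the start symbol -/
def st : List (Symbol (Fin 3) gr.NT) := [.nonterminal ()]

theorem g3 (w : List (Fin 3)) (h : Der gr st w) : Der gr st (0 :: (w ++ [2])) := by
  have h1 : Der gr (st ++ [.terminal 2]) (w ++ [2]) := h.append (Der.term 2 [] [] Der.nil)
  have h2 := Der.nt (g := gr) _ [] _ [] mr1 (Der.term 0 _ _ h1) Der.nil
  rw [List.append_nil] at h2
  exact h2

theorem g4 (w : List (Fin 3)) (h : Der gr st w) : Der gr st (1 :: w) := by
  have h2 := Der.nt (g := gr) _ [] _ [] mr2 (Der.term 1 _ _ h) Der.nil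
  rw [List.append_nil] at h2
  exact h2

theorem g5 : Der gr st [] := Der.nt (g := gr) _ [] _ [] mr3 Der.nil Der.nil

theorem g6 (j : ℕ) : Der gr st (List.replicate j 1) := by
  induction j with
  | zero => exact g5
  | succ j ih => exact g4 _ ih

theorem g7 (k j : ℕ) : Der gr st
    (List.replicate k 0 ++ List.replicate j 1 ++ List.replicate k 2) := by
  induction k with
  | zero => simpa using g6 j
  | succ k ih =>
    have := g3 _ ih
    rw [List.replicate_succ, List.replicate_succ' (a := (2 : Fin 3))]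
    simpa using this

/-- steps -/
def sF (k : ℕ) : Finset (Bool × List (Fin 3) × Bool) :=
  if k = 0 then {(false, [0], true), (true, [], false)} else
    if k = 1 then {(false, [1], false), (false, [2], true), (true, [2], true)} else
      {(false, [], false)}

/-- final productions -/
def fF (k : ℕ) : Finset (Bool × List (Fin 3)) :=
  if k = 0 then {(true, [])} else if k = 1 then {(true, [2]), (false, [2])} else {(false, [])}

/-- the parallel grammar -/
def PG (n : ℕ) : PRLG (n + 1) (Fin 3) where
  N _ := Bool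
  finN _ := inferInstance
  start := {fun _ => false}
  step i := sF i.val
  fin i := fF i.val

variable {n : ℕ}

/-- own version of the derivations -/
inductive DD (k : ℕ) : ℕ → Bool → List (Fin 3) → Prop
  | fin (X : Bool) (x : List (Fin 3)) : (X, x) ∈ fF k → DD k 1 X x
  | step (X : Bool) (x : List (Fin 3)) (Y : Bool) {t : ℕ} {u : List (Fin 3)} : (X, x, Y) ∈ sF k →
      DD k t Y u → DD k (t + 1) X (x ++ u)

theorem der_dd {i : Fin (n + 1)} {t : ℕ} {X : (PG n).N i} {u : List (Fin 3)}
    (h : (PG n).Der i t X u) : DD i.val t X u := by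
  induction h with
  | fin X x hx => exact DD.fin _ _ hx
  | step X x Y hx _ ih => exact DD.step _ _ _ hx ih

theorem dd_der {i : Fin (n + 1)} {t : ℕ} {X : Bool} {u : List (Fin 3)}
    (h : DD i.val t X u) : (PG n).Der i t X u := by
  induction h with
  | fin X x hx => exact PRLG.Der.fin (P := PG n) (i := i) _ _ hx
  | step X x Y hx _ ih => exact PRLG.Der.step (P := PG n) (i := i) _ _ _ hx ih

theorem d0 {t : ℕ} {X : Bool} {u : List (Fin 3)}
    (h : DD 0 t X u) : ∃ m, u = List.replicate m 0 ∧
      t = 2 * m + (if X then 1 else 0) := by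
  induction h with
  | fin X x hx =>
    simp [fF] at hx
    obtain ⟨rfl, rfl⟩ := hx
    exact ⟨0, by simp, by simp⟩
  | step X x Y hx _ ih =>
    simp [sF] at hx
    obtain ⟨m, rfl, rfl⟩ := ih
    rcases hx with ⟨rfl, rfl, rfl⟩ | ⟨rfl, rfl, rfl⟩
    · exact ⟨m + 1, by simp [List.replicate_succ], by simp; ring⟩
    · exact ⟨m, by simp, by simp⟩

theorem d1 {t : ℕ} {X : Bool} {u : List (Fin 3)}
    (h : DD 1 t X u) : ∃ j l, u = List.replicate j 1 ++ List.replicate l 2 ∧
      t = j + l ∧ 1 ≤ l ∧ (X = true → j = 0) := by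
  induction h with
  | fin X x hx =>
    simp [fF] at hx
    have hx' : x = [2] := by rcases hx with ⟨_, h⟩ | ⟨_, h⟩ <;> exact h
    subst hx'
    exact ⟨0, 1, by simp, by simp, le_rfl, fun _ => rfl⟩
  | step X x Y hx _ ih =>
    simp [sF] at hx
    obtain ⟨j, l, rfl, rfl, hl, hj⟩ := ih
    rcases hx with ⟨rfl, rfl, rfl⟩ | ⟨rfl, rfl, rfl⟩ | ⟨rfl, rfl, rfl⟩
    · exact ⟨j + 1, l, by simp [List.replicate_succ], by ring, hl, by simp⟩
    · have := hj rfl
      subst this
      exact ⟨0, l + 1, by simp [List.replicate_succ], by ring, by omega, fun _ => rfl⟩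
    · have := hj rfl
      subst this
      exact ⟨0, l + 1, by simp [List.replicate_succ], by ring, by omega, fun _ => rfl⟩

theorem d2 {k : ℕ} (hk : 2 ≤ k) {t : ℕ} {X : Bool} {u : List (Fin 3)}
    (h : DD k t X u) : u = [] := by
  have h0 : k ≠ 0 := by omega
  have h1 : k ≠ 1 := by omega
  induction h with
  | fin X x hx =>
    simp [fF, h0, h1] at hx
    exact hx.2
  | step X x Y hx _ ih =>
    simp [sF, h0, h1] at hx
    obtain ⟨rfl, rfl, rfl⟩ := hx
    simpa using ih

theorem c0 (m : ℕ) : DD 0 (2 * m + 2) false (List.replicate (m + 1) 0) := by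
  induction m with
  | zero => exact DD.step false [0] true (by simp [sF]) (DD.fin true [] (by simp [fF]))
  | succ m ih =>
    have h1 := DD.step true [] false (by simp [sF]) ih
    exact DD.step false [0] true (by simp [sF]) h1

theorem c1 (l : ℕ) : DD 1 (l + 1) true (List.replicate (l + 1) 2) := by
  induction l with
  | zero => exact DD.fin true [2] (by simp [fF])
  | succ l ih => exact DD.step true [2] true (by simp [sF]) ih

theorem c1' (l : ℕ) : DD 1 (l + 1) false (List.replicate (l + 1) 2) := by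
  cases l with
  | zero => exact DD.fin false [2] (by simp [fF])
  | succ l => exact DD.step false [2] true (by simp [sF]) (c1 l)

theorem c1'' (j l : ℕ) :
    DD 1 (j + (l + 1)) false (List.replicate j 1 ++ List.replicate (l + 1) 2) := by
  induction j with
  | zero => simpa using c1' l
  | succ j ih =>
    have := DD.step false [1] false (by simp [sF]) ih
    rw [show j + 1 + (l + 1) = j + (l + 1) + 1 by ring]
    exact this

theorem c2 {k : ℕ} (hk : 2 ≤ k) (t : ℕ) : DD k (t + 1) false [] := by
  have h0 : k ≠ 0 := by omega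
  have h1 : k ≠ 1 := by omega
  induction t with
  | zero => exact DD.fin false [] (by simp [fF, h0, h1])
  | succ t ih => exact DD.step false [] false (by simp [sF, h0, h1]) ih

theorem fl (n : ℕ) (u : Fin (n + 1 + 1) → List (Fin 3)) (h : ∀ i, 2 ≤ i.val → u i = []) :
    (List.ofFn u).flatten = u 0 ++ u 1 := by
  rw [List.ofFn_succ, List.ofFn_succ]
  have : (List.ofFn fun i : Fin n => u i.succ.succ).flatten = [] := by
    rw [List.flatten_eq_nil_iff]
    intro l hl
    rw [List.mem_ofFn] at hl
    obtain ⟨i, rfl⟩ := hl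
    exact h _ (by simp)
  rw [List.flatten_cons, List.flatten_cons, this]
  simp

end NC2

open NC2 Pool.Agent.R640.CF in
/-- Second half of piece NC. -/
theorem t_NC2 : ∀ n : ℕ, 1 ≤ n → HCP (n + 1) ABC := by
  intro n hn
  obtain ⟨n, rfl⟩ : ∃ m, n = m + 1 := ⟨n - 1, by omega⟩
  refine ⟨Fin 3, inferInstance, gr.language, PG (n + 1), fun d => [d], ⟨gr, rfl⟩, ?_⟩
  ext w
  constructor
  · rintro ⟨k, hk, rfl⟩
    obtain ⟨k, rfl⟩ : ∃ m, k = m + 1 := ⟨k - 1, by omega⟩
    refine ⟨_, mem_iff.2 (g7 (k + 1) (k + 1)), ?_, by simp⟩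
    refine ⟨fun _ => false, rfl, 2 * k + 2, fun i => if i.val = 0 then List.replicate (k + 1) 0 else
      if i.val = 1 then List.replicate (k + 1) 1 ++ List.replicate (k + 1) 2 else [], ?_, ?_⟩
    · intro i
      refine dd_der ?_
      by_cases h0 : i.val = 0
      · have := c0 k
        simpa only [h0, if_true] using this
      · by_cases h1 : i.val = 1
        · have := c1'' (k + 1) k
          rw [show k + 1 + (k + 1) = 2 * k + 2 by ring] at this
          simpa only [h1, if_true, one_ne_zero, if_false] using this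
        · have := c2 (k := i.val) (by omega) (2 * k + 1)
          simpa only [h0, h1, if_false] using this
    · rw [fl]
      · simp
      · intro i hi
        have h0 : i.val ≠ 0 := by omega
        have h1 : i.val ≠ 1 := by omega
        simp only [h0, h1, if_false]
  · rintro ⟨v, hv, ⟨X, hX, t, u, hu, rfl⟩, rfl⟩
    have hX' : X = fun _ => false := hX
    subst hX'
    rw [fl n u (fun i hi => d2 hi (der_dd (hu i)))] at hv ⊢
    obtain ⟨m, e1, e2⟩ := d0 (der_dd (hu 0))
    obtain ⟨j, l, e3, e4, hl, _⟩ := d1 (der_dd (hu 1))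
    rw [e1, e3] at hv ⊢
    have h5 := g2 hv
    simp [List.count_replicate, List.count_append] at h5 e2
    have : j = m := by omega
    subst this
    subst h5
    exact ⟨j, hl, by simp⟩

end Pool.Agent.R652.SR
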