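import Pool.Agent.R652.SR.NC1
import Pool.Agent.R652.SR.NC2

set_option autoImplicit false

namespace Pool.Agent.R652.SR

theorem t_NC : S_NC := ⟨t_NC1, t_NC2⟩

end Pool.Agent.R652.SR
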