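import Pool.Agent.R652.SR.Defs2
import Pool.Agent.R640.CFG

set_option autoImplicit false

namespace Pool.Agent.R652.SR

theorem nc_cnt {w : List (Fin 3)} (hw : w ∈ ABC) :
    w.length = 3 * w.count 0 ∧ w.count 2 = w.count 0 := by
  obtain ⟨k, _, rfl⟩ := hw
  simp [List.count_replicate, List.count_append]
  omega

/-- First half of piece NC. -/
theorem t_NC1 : ¬ ABC.IsContextFree := by
  intro h
  obtain ⟨K, hK⟩ := Pool.Agent.R640.CF.split_lang ABC h
  obtain ⟨k, hk⟩ : ∃ k, k = 2 * K + 2 := ⟨_, rfl⟩
  have hu : (List.replicate k 0 ++ List.replicate k 1 ++ List.replicate k 2 : List (Fin 3)) ∈ ABC :=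
    ⟨k, by omega, rfl⟩
  obtain ⟨α, x, y, β, e, h1, h2, h3, h4, ⟨x', hx', hx⟩, ⟨y', hy', hy⟩⟩ :=
    hK _ hu k (2 * k) (by omega) (by simp; omega)
  have c2 : (α ++ x).count 2 = 0 := by
    have hp : (α ++ x) <+: (List.replicate k 0 ++ List.replicate k 1 : List (Fin 3)) := by
      refine List.prefix_of_prefix_length_le
        (l₃ := List.replicate k 0 ++ List.replicate k 1 ++ List.replicate k 2) ?_
        (List.prefix_append _ _) ?_
      · rw [e]; exact ⟨y ++ β, by simp⟩
      · simp; omega
    have h := hp.sublist.count_le 2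
    have h' : (List.replicate k 0 ++ List.replicate k 1 : List (Fin 3)).count 2 = 0 := by
      simp [List.count_replicate, List.count_append]
    omega
  have c0 : (y ++ β).count 0 = 0 := by
    have hp : (y ++ β) <:+ (List.replicate k 1 ++ List.replicate k 2 : List (Fin 3)) := by
      refine List.suffix_of_suffix_length_le
        (l₃ := List.replicate k 0 ++ List.replicate k 1 ++ List.replicate k 2) ?_ ?_ ?_
      · rw [e]; exact ⟨α ++ x, by simp⟩
      · exact ⟨List.replicate k 0, by simp⟩
      · have := congrArg List.length e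
        simp at this ⊢
        omega
    have h := hp.sublist.count_le 0
    have h' : (List.replicate k 1 ++ List.replicate k 2 : List (Fin 3)).count 0 = 0 := by
      simp [List.count_replicate, List.count_append]
    omega
  have e0 := congrArg (List.count 0) e
  have e2 := congrArg (List.count 2) e
  have el := congrArg List.length e
  obtain ⟨p1, p2⟩ := nc_cnt hx
  obtain ⟨q1, q2⟩ := nc_cnt hy
  simp [List.count_replicate, List.count_append] at e0 e2 el c2 c0 p1 p2 q1 q2
  omega

end Pool.Agent.R652.SR
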