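import Pool.Agent.R238.PK.Parikh

set_option autoImplicit false

namespace Pool.Agent.R652.SR

/-- Parikh's theorem -/
theorem t_PK : S_PK := Pool.Agent.R238.PK.t_PK

end Pool.Agent.R652.SR
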