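import Pool.Agent.R652.SR.Defs2

set_option autoImplicit false
set_option linter.unusedSectionVars false
set_option linter.unusedSimpArgs false

namespace Pool.Agent.R652.SR

namespace PKb

open Pointwise

variable {I : Type} [DecidableEq I]

/-- Commutative derivations in which exactly the symbols of `S` are to be rewritten. -/
inductive Der (R : I → Set (I → ℕ)) (S : Finset I) : (I → ℕ) → (I → ℕ) → Prop
  | done (y : I → ℕ) (h : ∀ i ∈ S, y i = 0) : Der R S y y
  | step (y y' r : I → ℕ) (X : I) (hX : X ∈ S) (hr : r ∈ R X) (h : Der R S (y + r) y') :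
      Der R S (y + Pi.single X 1) y'

variable {R : I → Set (I → ℕ)} {S S' : Finset I}

lemma Der.zero {y w : I → ℕ} (h : Der R S y w) : ∀ i ∈ S, w i = 0 := by
  induction h with
  | done y h => exact h
  | step y y' r X hX hr h ih => exact ih

lemma lift (hS : S ⊆ S') {r t : I → ℕ} (h : Der R S r t) :
    ∀ y w, Der R S' (y + t) w → Der R S' (y + r) w := by
  induction h with
  | done y h => intro y w h; exact h
  | step r0 t rr X hX hr h ih =>
    intro y w hw
    have h1 := ih y w hw
    have h2 := Der.step (y + r0) w rr X (hS hX) hr (by rwa [add_assoc])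
    rwa [add_assoc] at h2

lemma addc {y y1 : I → ℕ} (h : Der R S y y1) (c : I → ℕ) (hc : ∀ i ∈ S, c i = 0) :
    Der R S (y + c) (y1 + c) := by
  induction h with
  | done y h => exact Der.done _ (by intro i hi; simp [h i hi, hc i hi])
  | step y y' r X hX hr h ih =>
    rw [add_right_comm]
    exact Der.step _ _ r X hX hr (by rwa [add_right_comm])

lemma exists_sub (z : I → ℕ) (X : I) (h : z X ≠ 0) :
    ∃ z' : I → ℕ, z = z' + Pi.single X 1 := by
  refine ⟨z - Pi.single X 1, ?_⟩
  funext i
  by_cases hi : i = X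
  · subst hi
    simp
    omega
  · simp [hi]

lemma split {x w : I → ℕ} (h : Der R S x w) : ∀ y z, x = y + z →
    ∃ y1 z1, Der R S y y1 ∧ Der R S z z1 ∧ w = y1 + z1 := by
  induction h with
  | done x h =>
    intro y z e
    refine ⟨y, z, Der.done _ ?_, Der.done _ ?_, e⟩
    · intro i hi
      have := h i hi
      rw [e] at this
      simp at this
      exact this.1
    · intro i hi
      have := h i hi
      rw [e] at this
      simp at this
      exact this.2
  | step x0 w r X hX hr h ih =>
    intro y z e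
    have e1 : x0 X + 1 = y X + z X := by
      have := congrFun e X
      simpa using this
    by_cases hy : y X = 0
    · obtain ⟨z', hz'⟩ := exists_sub z X (by omega)
      have e2 : x0 = y + z' := by
        rw [hz', ← add_assoc] at e
        exact add_right_cancel e
      obtain ⟨y1, z1, h1, h2, h3⟩ := ih y (z' + r) (by rw [e2, add_assoc])
      refine ⟨y1, z1, h1, ?_, h3⟩
      rw [hz']
      exact Der.step _ _ r X hX hr h2
    · obtain ⟨y', hy'⟩ := exists_sub y X hy
      have e2 : x0 = y' + z := by
        rw [hy', add_right_comm] at e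
        exact add_right_cancel e
      obtain ⟨y1, z1, h1, h2, h3⟩ := ih (y' + r) z (by rw [e2, add_right_comm])
      refine ⟨y1, z1, ?_, h2, h3⟩
      rw [hy']
      exact Der.step _ _ r X hX hr h1

omit [DecidableEq I] in
lemma take_out (l : List (I → ℕ)) (t : I → ℕ) (h : t ∈ l) :
    ∃ l' : List (I → ℕ), l.length = l'.length + 1 ∧ l.sum = t + l'.sum ∧ ∀ s ∈ l', s ∈ l := by
  obtain ⟨a, b, rfl⟩ := List.append_of_mem h
  refine ⟨a ++ b, ?_, ?_, ?_⟩
  · simp
    omega
  · simp only [List.sum_append, List.sum_cons]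
    abel
  · intro s hs
    rcases List.mem_append.mp hs with h | h
    · simp [h]
    · simp [h]

omit [DecidableEq I] in
lemma sum_apply_zero (Z : I) (l : List (I → ℕ)) (h : ∀ t ∈ l, t Z = 0) : l.sum Z = 0 := by
  induction l with
  | nil => simp
  | cons a l ih =>
    rw [List.sum_cons, Pi.add_apply, h a (by simp), ih (fun t ht => h t (by simp [ht]))]

lemma run (Z : I) (n : ℕ) : ∀ (l : List (I → ℕ)), l.length = n →
    (∀ t ∈ l, ∃ r ∈ R Z, Der R S r t) → ∀ y0 w : I → ℕ, (∀ i ∈ S, y0 i = 0) →
    (l = [] ∨ y0 Z ≠ 0) → w Z = 0 → w + n • Pi.single Z 1 = y0 + l.sum →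
    Der R (insert Z S) y0 w := by
  induction n with
  | zero =>
    intro l hl hT y0 w hy0 hc hw e
    have hl' : l = [] := List.length_eq_zero_iff.mp hl
    subst hl'
    simp at e
    subst e
    refine Der.done _ ?_
    intro i hi
    rcases Finset.mem_insert.mp hi with h | h
    · rw [h]; exact hw
    · exact hy0 i h
  | succ n ih =>
    intro l hl hT y0 w hy0 hc hw e
    have hne : l ≠ [] := by
      intro h
      rw [h] at hl
      simp at hl
    have hyZ : y0 Z ≠ 0 := by
      rcases hc with h | h
      · exact absurd h hne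
      · exact h
    obtain ⟨y', hy'⟩ := exists_sub y0 Z hyZ
    -- choose the element
    obtain ⟨t, ht, hcase⟩ : ∃ t ∈ l, t Z ≠ 0 ∨ ∀ s ∈ l, s Z = 0 := by
      by_cases h : ∃ t ∈ l, t Z ≠ 0
      · obtain ⟨t, ht, h1⟩ := h
        exact ⟨t, ht, Or.inl h1⟩
      · push Not at h
        obtain ⟨t, ht⟩ := List.exists_mem_of_ne_nil l hne
        exact ⟨t, ht, Or.inr h⟩
    obtain ⟨r, hr, hrt⟩ := hT t ht
    obtain ⟨l', hlen', hsum, hmem⟩ := take_out l t ht
    have hlen : l'.length = n := by omega
    have hcancel : w + n • Pi.single Z 1 = (y' + t) + l'.sum := by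
      rw [hy', hsum, succ_nsmul, ← add_assoc] at e
      have e' : w + n • Pi.single Z 1 + Pi.single Z 1
          = (y' + t + l'.sum) + Pi.single Z 1 := by
        rw [e]
        abel
      exact add_right_cancel e'
    rw [hy']
    refine Der.step _ _ r Z (Finset.mem_insert_self _ _) hr ?_
    refine lift (Finset.subset_insert Z S) hrt y' w ?_
    refine ih l' hlen (fun s hs => hT s (hmem s hs)) (y' + t) w ?_ ?_ hw
      hcancel
    · intro i hi
      have h1 := hy0 i hi
      have h2 := hrt.zero i hi
      rw [hy'] at h1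
      simp only [Pi.add_apply] at h1 ⊢
      omega
    · rcases hcase with h | h
      · right
        simp only [Pi.add_apply]
        omega
      · rcases Nat.eq_zero_or_pos n with h0 | h0
        · left
          exact List.length_eq_zero_iff.mp (by rw [hlen, h0])
        · right
          have h3 := congrFun hcancel Z
          have h4 := sum_apply_zero Z l' (fun s hs => h s (hmem s hs))
          simp only [Pi.add_apply, Pi.smul_apply, Pi.single_eq_same, smul_eq_mul, mul_one] at h3 ⊢
          omega

/-- The set of results of the right sides of the rules of `Z`. -/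
def TT (R : I → Set (I → ℕ)) (S : Finset I) (Z : I) : Set (I → ℕ) :=
  {t | ∃ r ∈ R Z, Der R S r t}

/-- Counting closure. -/
def CC (R : I → Set (I → ℕ)) (S : Finset I) (Z : I) : Set (ℕ × (I → ℕ)) :=
  (AddSubmonoid.closure ((fun t => ((1 : ℕ), t)) '' TT R S Z) : Set (ℕ × (I → ℕ)))

lemma exists_list {Z : I} {n : ℕ} {u : I → ℕ} (h : (n, u) ∈ CC R S Z) :
    ∃ l : List (I → ℕ), l.length = n ∧ (∀ t ∈ l, t ∈ TT R S Z) ∧ l.sum = u := by
  have h' : (n, u) ∈ AddSubmonoid.closure ((fun t => ((1 : ℕ), t)) '' TT R S Z) := h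
  obtain ⟨l, hl, hs⟩ := AddSubmonoid.exists_list_of_mem_closure h'
  refine ⟨l.map Prod.snd, ?_, ?_, ?_⟩
  · have h1 : ∀ m : List (ℕ × (I → ℕ)),
        (∀ y ∈ m, y ∈ (fun t => ((1 : ℕ), t)) '' TT R S Z) → m.length = m.sum.1 := by
      intro m
      induction m with
      | nil => intro _; simp
      | cons a m ih =>
        intro hm
        obtain ⟨t, _, ht⟩ := hm a (by simp)
        have := ih (fun y hy => hm y (by simp [hy]))
        rw [List.length_cons, List.sum_cons, Prod.fst_add, this, ← ht]
        simp [add_comm]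
    rw [List.length_map, h1 l hl, hs]
  · intro t ht
    obtain ⟨p, hp, rfl⟩ := List.mem_map.mp ht
    obtain ⟨t, h2, h3⟩ := hl p hp
    rw [← h3]
    exact h2
  · have h1 : ∀ m : List (ℕ × (I → ℕ)), (m.map Prod.snd).sum = m.sum.2 := by
      intro m
      induction m with
      | nil => simp
      | cons a m ih => simp [ih]
    rw [h1, hs]

lemma der_insert {Z : I} (hZ : Z ∉ S) {y w : I → ℕ} (h : Der R (insert Z S) y w) :
    ∃ y0 n u, Der R S y y0 ∧ (n, u) ∈ CC R S Z ∧ w Z = 0 ∧
      w + n • Pi.single Z 1 = y0 + u ∧ (y0 Z = 0 → n = 0) := by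
  induction h with
  | done y h =>
    refine ⟨y, 0, 0, Der.done _ (fun i hi => h i (Finset.mem_insert_of_mem hi)), ?_,
      h Z (Finset.mem_insert_self _ _), by simp, fun _ => rfl⟩
    exact AddSubmonoid.zero_mem _
  | step y w r X hX hr h ih =>
    obtain ⟨y0, n, u, h1, h2, h3, h4, h5⟩ := ih
    by_cases hXZ : X = Z
    · subst hXZ
      obtain ⟨y1, t, h6, h7, h8⟩ := split h1 y r rfl
      refine ⟨y1 + Pi.single X 1, n + 1, u + t, ?_, ?_, h3, ?_, ?_⟩
      · refine addc h6 _ ?_
        intro i hi
        have : i ≠ X := by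
          rintro rfl
          exact hZ hi
        simp [this]
      · have h9 : ((1 : ℕ), t) ∈ CC R S X := by
          refine AddSubmonoid.subset_closure ?_
          exact ⟨t, ⟨r, hr, h7⟩, rfl⟩
        have h10 := AddSubmonoid.add_mem _ h2 h9
        exact h10
      · rw [succ_nsmul, ← add_assoc, h4, h8]
        abel
      · intro h
        simp at h
    · have hXS : X ∈ S := by
        rcases Finset.mem_insert.mp hX with h | h
        · exact absurd h hXZ
        · exact h
      exact ⟨y0, n, u, Der.step _ _ r X hXS hr h1, h2, h3, h4, h5⟩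

lemma insert_der {Z : I} {y w : I → ℕ} {y0 : I → ℕ} {n : ℕ} {u : I → ℕ}
    (h1 : Der R S y y0) (h2 : (n, u) ∈ CC R S Z) (h3 : w Z = 0)
    (h4 : w + n • Pi.single Z 1 = y0 + u) (h5 : y0 Z = 0 → n = 0) :
    Der R (insert Z S) y w := by
  obtain ⟨l, hl, hT, hs⟩ := exists_list h2
  have h := run Z n l hl hT y0 w h1.zero ?_ h3 (by rw [hs]; exact h4)
  · have := lift (Finset.subset_insert Z S) h1 0 w (by simpa using h)
    simpa using this
  · by_cases h6 : y0 Z = 0
    · left
      exact List.length_eq_zero_iff.mp (by rw [hl, h5 h6])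
    · exact Or.inr h6

theorem semilinear [Finite I] (hR : ∀ i, (R i).Finite) (S : Finset I) :
    ∀ y : I → ℕ, IsSemilinearSet {w | Der R S y w} := by
  induction S using Finset.induction_on with
  | empty =>
    intro y
    have : {w | Der R ∅ y w} = {y} := by
      ext w
      constructor
      · intro h
        have h' : Der R ∅ y w := h
        cases h' with
        | done y h => rfl
        | step y y' r X hX hr h => simp at hX
      · rintro rfl
        exact Der.done _ (by simp)
    rw [this]
    exact IsSemilinearSet.singleton _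
  | insert Z S hZ ih =>
    intro y
    have hT : IsSemilinearSet (TT R S Z) := by
      have : TT R S Z = ⋃ r ∈ R Z, {w | Der R S r w} := by
        ext t
        simp [TT]
      rw [this]
      exact IsSemilinearSet.biUnion (hR Z) (fun r _ => ih r)
    have hC : IsSemilinearSet (CC R S Z) := by
      refine IsSemilinearSet.closure ?_
      have : (fun t => ((1 : ℕ), t)) '' TT R S Z
          = ({((1 : ℕ), (0 : I → ℕ))} : Set (ℕ × (I → ℕ))) +
            (AddMonoidHom.inr ℕ (I → ℕ)) '' TT R S Z := by
        ext p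
        constructor
        · rintro ⟨t, ht, rfl⟩
          refine ⟨_, rfl, _, ⟨t, ht, rfl⟩, ?_⟩
          simp
        · rintro ⟨_, rfl, _, ⟨t, ht, rfl⟩, rfl⟩
          refine ⟨t, ht, ?_⟩
          simp
      rw [this]
      exact (IsSemilinearSet.singleton _).add (hT.image _)
    let P := (I → ℕ) × (ℕ × (I → ℕ)) × (I → ℕ)
    let p1 : P →+ (I → ℕ) := AddMonoidHom.fst _ _
    let p2 : P →+ (ℕ × (I → ℕ)) := (AddMonoidHom.fst _ _).comp (AddMonoidHom.snd _ _)
    let p3 : P →+ (I → ℕ) := (AddMonoidHom.snd _ _).comp (AddMonoidHom.snd _ _)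
    let pn : P →+ ℕ := (AddMonoidHom.fst _ _).comp p2
    let pu : P →+ (I → ℕ) := (AddMonoidHom.snd _ _).comp p2
    have a1 : IsSemilinearSet (p1 ⁻¹' {w | Der R S y w}) := (ih y).preimage p1
    have a2 : IsSemilinearSet (p2 ⁻¹' CC R S Z) := hC.preimage p2
    have a3 : IsSemilinearSet (((Pi.evalAddMonoidHom (fun _ => ℕ) Z).comp p3) ⁻¹' {0}) :=
      (IsSemilinearSet.singleton (0 : ℕ)).preimage _
    have a4 := isSemilinearSet_setOfPred_eq (0 : I → ℕ) 0
      (p3 + ((multiplesHom (I → ℕ)) (Pi.single Z 1)).comp pn) (p1 + pu)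
    have a5 : IsSemilinearSet (((Pi.evalAddMonoidHom (fun _ => ℕ) Z).comp p1) ⁻¹' {0}) :=
      (IsSemilinearSet.singleton (0 : ℕ)).preimage _
    have a6 : IsSemilinearSet (pn ⁻¹' {0}) := (IsSemilinearSet.singleton (0 : ℕ)).preimage _
    have a7 := ((((a1.inter a2).inter a3).inter a4).inter (a5.compl.union a6)).image p3
    convert a7 using 1
    ext w
    constructor
    · intro h
      obtain ⟨y0, n, u, h1, h2, h3, h4, h5⟩ := der_insert hZ h
      refine ⟨(y0, (n, u), w), ⟨⟨⟨⟨h1, h2⟩, h3⟩, ?_⟩, ?_⟩, rfl⟩
      · show 0 + (w + n • Pi.single Z 1) = 0 + (y0 + u)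
        rw [h4]
      · by_cases h6 : y0 Z = 0
        · exact Or.inr (h5 h6)
        · exact Or.inl h6
    · rintro ⟨⟨y0, ⟨n, u⟩, w'⟩, ⟨⟨⟨⟨h1, h2⟩, h3⟩, h4⟩, h5⟩, rfl⟩
      have h4' : 0 + (w' + n • Pi.single Z 1) = 0 + (y0 + u) := h4
      rw [zero_add, zero_add] at h4'
      refine insert_der h1 h2 h3 h4' ?_
      intro h6
      rcases h5 with h | h
      · exact absurd h6 h
      · exact h

section link

open scoped Classical

variable {D : Type} [Fintype D] [DecidableEq D] (g : ContextFreeGrammar D)

/-- The relevant nonterminals. -/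
noncomputable def NS : Finset g.NT := insert g.initial (g.rules.image ContextFreeRule.input)

/-- The index type. -/
abbrev Ix : Type := {X // X ∈ NS g} ⊕ Option D

/-- Commutative image of a symbol. -/
noncomputable def sym : Symbol D g.NT → (Ix g → ℕ)
  | .terminal d => Pi.single (Sum.inr (some d)) 1
  | .nonterminal X =>
    if h : X ∈ NS g then Pi.single (Sum.inl ⟨X, h⟩) 1 else Pi.single (Sum.inr none) 1

/-- Commutative image of a sentential form. -/
noncomputable def cnt (s : List (Symbol D g.NT)) : Ix g → ℕ := (s.map (sym g)).sum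

omit [Fintype D] in
lemma cnt_append (p q : List (Symbol D g.NT)) : cnt g (p ++ q) = cnt g p + cnt g q := by
  simp [cnt]

omit [Fintype D] in
lemma cnt_cons (a : Symbol D g.NT) (q : List (Symbol D g.NT)) :
    cnt g (a :: q) = sym g a + cnt g q := by
  simp [cnt]

/-- The rules. -/
def RR : Ix g → Set (Ix g → ℕ)
  | .inl X => {y | ∃ r ∈ g.rules, r.input = X.1 ∧ y = cnt g r.output}
  | .inr _ => ∅

/-- The set of nonterminals. -/
noncomputable def SS : Finset (Ix g) := Finset.univ.image Sum.inl

lemma RR_finite (i : Ix g) : (RR g i).Finite := by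
  rcases i with X | o
  · refine (g.rules.finite_toSet.image (fun r => cnt g r.output)).subset ?_
    rintro y ⟨r, hr, _, rfl⟩
    exact ⟨r, hr, rfl⟩
  · exact Set.finite_empty

lemma cnt_term_inl (w : List D) (X : {X // X ∈ NS g}) :
    cnt g (w.map Symbol.terminal) (Sum.inl X) = 0 := by
  induction w with
  | nil => simp [cnt]
  | cons a w ih =>
    rw [List.map_cons, cnt_cons, Pi.add_apply, ih]
    simp [sym]

lemma cnt_term_none (w : List D) :
    cnt g (w.map Symbol.terminal) (Sum.inr none) = 0 := by
  induction w with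
  | nil => simp [cnt]
  | cons a w ih =>
    rw [List.map_cons, cnt_cons, Pi.add_apply, ih]
    simp [sym]

lemma cnt_term_some (w : List D) (d : D) :
    cnt g (w.map Symbol.terminal) (Sum.inr (some d)) = w.count d := by
  induction w with
  | nil => simp [cnt]
  | cons a w ih =>
    rw [List.map_cons, cnt_cons, Pi.add_apply, ih, List.count_cons]
    by_cases h : a = d
    · subst h
      simp [sym, add_comm]
    · have h' : ¬ d = a := fun e => h e.symm
      simp [sym, h, h', Pi.single_apply]

lemma mem_SS (X : {X // X ∈ NS g}) : (Sum.inl X : Ix g) ∈ SS g := by simp [SS]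

lemma fwd (s : List (Symbol D g.NT)) (w : List D)
    (h : g.Derives s (w.map Symbol.terminal)) :
    Der (RR g) (SS g) (cnt g s) (cnt g (w.map Symbol.terminal)) := by
  induction h using Relation.ReflTransGen.head_induction_on with
  | refl =>
    refine Der.done _ ?_
    intro i hi
    simp only [SS, Finset.mem_image, Finset.mem_univ, true_and] at hi
    obtain ⟨X, rfl⟩ := hi
    exact cnt_term_inl g w X
  | head h1 _ ih =>
    obtain ⟨r, hr, hrw⟩ := h1
    obtain ⟨p, q, rfl, rfl⟩ := ContextFreeRule.rewrites_iff.mp hrw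
    have hmem : r.input ∈ NS g := by
      simp only [NS, Finset.mem_insert, Finset.mem_image]
      exact Or.inr ⟨r, hr, rfl⟩
    have e : cnt g (p ++ [Symbol.nonterminal r.input] ++ q)
        = (cnt g p + cnt g q) + Pi.single (Sum.inl ⟨r.input, hmem⟩) 1 := by
      rw [cnt_append, cnt_append]
      have : cnt g [Symbol.nonterminal r.input] = Pi.single (Sum.inl ⟨r.input, hmem⟩) 1 := by
        simp [cnt, sym, hmem]
      rw [this]
      abel
    rw [e]
    refine Der.step _ _ (cnt g r.output) _ (mem_SS g _) ⟨r, hr, rfl, rfl⟩ ?_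
    have e2 : cnt g p + cnt g q + cnt g r.output = cnt g (p ++ r.output ++ q) := by
      rw [cnt_append, cnt_append]
      abel
    rw [e2]
    exact ih

lemma all_term (s : List (Symbol D g.NT)) (h1 : ∀ X, cnt g s (Sum.inl X) = 0)
    (h2 : cnt g s (Sum.inr none) = 0) : ∃ w : List D, s = w.map Symbol.terminal := by
  induction s with
  | nil => exact ⟨[], rfl⟩
  | cons a s ih =>
    have h3 : ∀ X, sym g a (Sum.inl X) = 0 ∧ cnt g s (Sum.inl X) = 0 := by
      intro X
      have := h1 X
      rw [cnt_cons, Pi.add_apply] at this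
      omega
    have h4 : sym g a (Sum.inr none) = 0 ∧ cnt g s (Sum.inr none) = 0 := by
      have := h2
      rw [cnt_cons, Pi.add_apply] at this
      omega
    obtain ⟨w, hw⟩ := ih (fun X => (h3 X).2) h4.2
    cases a with
    | terminal d => exact ⟨d :: w, by rw [hw]; rfl⟩
    | nonterminal X =>
      exfalso
      by_cases hX : X ∈ NS g
      · have := (h3 ⟨X, hX⟩).1
        simp [sym, hX] at this
      · have := h4.1
        simp [sym, hX] at this

lemma mem_of_cnt (s : List (Symbol D g.NT)) (X : {X // X ∈ NS g})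
    (h1 : cnt g s (Sum.inl X) ≠ 0) : Symbol.nonterminal X.1 ∈ s := by
  induction s with
  | nil => simp [cnt] at h1
  | cons a s ih =>
    rw [cnt_cons, Pi.add_apply] at h1
    by_cases h : cnt g s (Sum.inl X) = 0
    · have h2 : sym g a (Sum.inl X) ≠ 0 := by omega
      cases a with
      | terminal d => simp [sym] at h2
      | nonterminal Y =>
        by_cases hY : Y ∈ NS g
        · by_cases e : X.1 = Y
          · simp [e]
          · exfalso
            apply h2
            have e' : ¬ X = ⟨Y, hY⟩ := fun e1 => e (by rw [e1])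
            simp [sym, hY, Pi.single_apply, e']
        · exfalso
          apply h2
          simp [sym, hY]
    · exact List.mem_cons_of_mem _ (ih h)

lemma bwd {x v : Ix g → ℕ} (h : Der (RR g) (SS g) x v) :
    ∀ s : List (Symbol D g.NT), x = cnt g s → v (Sum.inr none) = 0 →
    ∃ w : List D, g.Derives s (w.map Symbol.terminal) ∧ v = cnt g (w.map Symbol.terminal) := by
  induction h with
  | done x h =>
    intro s hs hv
    subst hs
    obtain ⟨w, hw⟩ := all_term g s (fun X => h _ (mem_SS g X)) hv
    refine ⟨w, ?_, by rw [hw]⟩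
    rw [← hw]
  | step y v r X hX hr h ih =>
    intro s hs hv
    rcases X with X | o
    · obtain ⟨r0, hr0, hin, rfl⟩ := hr
      have h1 : cnt g s (Sum.inl X) ≠ 0 := by
        rw [← hs]
        simp
      have h2 := mem_of_cnt g s X h1
      obtain ⟨p, q, rfl⟩ := List.append_of_mem h2
      have e : y = cnt g p + cnt g q := by
        have e1 : cnt g (p ++ Symbol.nonterminal X.1 :: q)
            = (cnt g p + cnt g q) + Pi.single (Sum.inl X) 1 := by
          rw [cnt_append, cnt_cons]
          have : sym g (Symbol.nonterminal X.1) = Pi.single (Sum.inl X) 1 := by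
            simp [sym, X.2]
          rw [this]
          abel
        rw [e1] at hs
        exact add_right_cancel hs
      obtain ⟨w, hw1, hw2⟩ := ih (p ++ r0.output ++ q) (by
        rw [cnt_append, cnt_append, e]
        abel) hv
      refine ⟨w, ?_, hw2⟩
      refine ContextFreeGrammar.Produces.trans_derives ?_ hw1
      refine ⟨r0, hr0, ?_⟩
      rw [ContextFreeRule.rewrites_iff]
      exact ⟨p, q, by rw [hin]; simp, rfl⟩
    · exact absurd hr (by simp [RR])

/-- The restriction to the terminals. -/
def rho : (Ix g → ℕ) →+ (D → ℕ) where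
  toFun v d := v (Sum.inr (some d))
  map_zero' := rfl
  map_add' := fun _ _ => rfl

theorem par_cfg : IsSemilinearSet (Par g.language) := by
  have h1 := semilinear (R := RR g) (RR_finite g) (SS g) (cnt g [Symbol.nonterminal g.initial])
  have h2 : IsSemilinearSet
      ((Pi.evalAddMonoidHom (fun _ : Ix g => ℕ) (Sum.inr none)) ⁻¹' {0}) :=
    (IsSemilinearSet.singleton (0 : ℕ)).preimage _
  convert (h1.inter h2).image (rho g) using 1
  ext v
  constructor
  · rintro ⟨w, hw, hv⟩
    refine ⟨cnt g (w.map Symbol.terminal), ⟨fwd g _ w hw, cnt_term_none g w⟩, ?_⟩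
    funext d
    rw [hv d]
    exact cnt_term_some g w d
  · rintro ⟨x, ⟨hx1, hx2⟩, rfl⟩
    obtain ⟨w, hw1, hw2⟩ := bwd g hx1 _ rfl hx2
    refine ⟨w, hw1, ?_⟩
    intro d
    rw [hw2]
    exact cnt_term_some g w d

end link

end PKb

theorem t_PKb : S_PK := by
  intro D _ _ K hK
  obtain ⟨g, rfl⟩ := hK
  exact PKb.par_cfg g

end Pool.Agent.R652.SR
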