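import Pool.Agent.R652.SR.Defs2
import Pool.Agent.Helper79.Comap

set_option autoImplicit false

/-!
# Piece SM: intersections of context-free and strict parallel right-linear languages have
semilinear commutative images
-/

namespace Pool.Agent.R652.SR

namespace SMp

section

variable {D : Type} {n : ℕ} (P : PRLG (n + 1) D) (X : ∀ i, P.N i)

/-- states of the acceptor -/
abbrev Sta : Type := Option (Σ j : Fin (n + 1), P.N j)

/-- the state at the beginning of block `k` -/
def st (k : ℕ) : Sta P := if h : k < n + 1 then some ⟨⟨k, h⟩, X ⟨k, h⟩⟩ else none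

inductive Stp : Sta P → D × Fin (n + 1) → Sta P → Prop
  | step (j : Fin (n + 1)) (Y Z : P.N j) (d : D) : (Y, [d], Z) ∈ P.step j →
      Stp (some ⟨j, Y⟩) (d, j) (some ⟨j, Z⟩)
  | fin (j : Fin (n + 1)) (Y : P.N j) (d : D) : (Y, [d]) ∈ P.fin j →
      Stp (some ⟨j, Y⟩) (d, j) (st P X (j.val + 1))

def Acc : Sta P → List (D × Fin (n + 1)) → Prop
  | s, [] => s = none
  | s, e :: w => ∃ s', Stp P X s e s' ∧ Acc s' w

def dfa : DFA (D × Fin (n + 1)) (Set (Sta P)) where
  step T e := {s' | ∃ s ∈ T, Stp P X s e s'}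
  start := {st P X 0}
  accept := {T | none ∈ T}

theorem dfa_eval (w : List (D × Fin (n + 1))) : ∀ T : Set (Sta P),
    none ∈ (dfa P X).evalFrom T w ↔ ∃ s ∈ T, Acc P X s w := by
  induction w with
  | nil =>
    intro T
    rw [DFA.evalFrom_nil]
    constructor
    · intro h
      exact ⟨none, h, rfl⟩
    · rintro ⟨s, hs, h⟩
      have h' : s = none := h
      rw [← h']
      exact hs
  | cons e w ih =>
    intro T
    rw [DFA.evalFrom_cons, ih]
    constructor
    · rintro ⟨s', ⟨s, hs, hst⟩, h⟩
      exact ⟨s, hs, s', hst, h⟩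
    · rintro ⟨s, hs, s', hst, h⟩
      exact ⟨s', ⟨s, hs, hst⟩, h⟩

theorem mem_dfa (w : List (D × Fin (n + 1))) : w ∈ (dfa P X).accepts ↔ Acc P X (st P X 0) w := by
  rw [DFA.mem_accepts]
  have h := dfa_eval P X w {st P X 0}
  constructor
  · intro h1
    obtain ⟨s, hs, hA⟩ := h.1 h1
    rw [Set.mem_singleton_iff] at hs
    rw [← hs]
    exact hA
  · intro h1
    exact h.2 ⟨_, rfl, h1⟩

theorem acc_none (w : List (D × Fin (n + 1))) : Acc P X none w ↔ w = [] := by
  cases w with
  | nil => simp [Acc]
  | cons e w =>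
    constructor
    · rintro ⟨s', h, -⟩
      cases h
    · intro h
      cases h

variable {P}

theorem der_length (hP : P.Strict) {i : Fin (n + 1)} {t : ℕ} {Y : P.N i} {u : List D}
    (h : P.Der i t Y u) : u.length = t := by
  induction h with
  | fin Y x hx => exact hP.2 i _ hx
  | step Y x Z hx _ ih =>
    have h1 : x.length = 1 := hP.1 i _ hx
    rw [List.length_append, h1, ih]
    omega

theorem acc_blk (hP : P.Strict) (j : Fin (n + 1)) (w : List (D × Fin (n + 1))) : ∀ Y : P.N j,
    Acc P X (some ⟨j, Y⟩) w ↔ ∃ (t : ℕ) (u : List D) (r : List (D × Fin (n + 1))),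
      P.Der j t Y u ∧ w = u.map (fun d => (d, j)) ++ r ∧ Acc P X (st P X (j.val + 1)) r := by
  intro Y
  constructor
  · induction w generalizing Y with
    | nil =>
      intro h
      cases h
    | cons e w ih =>
      rintro ⟨s', hst, h⟩
      cases hst with
      | step _ _ Z d hm =>
        obtain ⟨t, u, r, h1, h2, h3⟩ := ih Z h
        refine ⟨t + 1, [d] ++ u, r, PRLG.Der.step Y [d] Z hm h1, ?_, h3⟩
        rw [h2]
        simp
      | fin _ _ d hm =>
        exact ⟨1, [d], w, PRLG.Der.fin Y [d] hm, by simp, h⟩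
  · rintro ⟨t, u, r, h1, rfl, h3⟩
    induction h1 with
    | fin Y x hx =>
      have h1 : x.length = 1 := hP.2 j _ hx
      obtain ⟨d, rfl⟩ := List.length_eq_one_iff.1 h1
      exact ⟨_, Stp.fin j Y d hx, h3⟩
    | step Y x Z hx _ ih =>
      have h1 : x.length = 1 := hP.1 j _ hx
      obtain ⟨d, rfl⟩ := List.length_eq_one_iff.1 h1
      exact ⟨_, Stp.step j Y Z d hx, ih⟩

/-- the blocks from `k` on -/
def tl (u : Fin (n + 1) → List D) (k : ℕ) : List (D × Fin (n + 1)) :=
  ((List.ofFn fun i => (u i).map (fun d => (d, i))).drop k).flatten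

theorem tl_top (u : Fin (n + 1) → List D) {k : ℕ} (h : n + 1 ≤ k) : tl u k = [] := by
  unfold tl
  rw [List.drop_eq_nil_of_le (by simpa using h)]
  rfl

theorem tl_step (u : Fin (n + 1) → List D) {k : ℕ} (h : k < n + 1) :
    tl u k = (u ⟨k, h⟩).map (fun d => (d, (⟨k, h⟩ : Fin (n + 1)))) ++ tl u (k + 1) := by
  unfold tl
  rw [List.drop_eq_getElem_cons (by simpa using h), List.flatten_cons, List.getElem_ofFn]

theorem tl_congr {u u' : Fin (n + 1) → List D} {k : ℕ}
    (h : ∀ i : Fin (n + 1), k ≤ i.val → u i = u' i) : tl u k = tl u' k := by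
  unfold tl
  congr 1
  apply List.ext_getElem
  · simp
  · intro i h1 h2
    rw [List.getElem_drop, List.getElem_drop, List.getElem_ofFn, List.getElem_ofFn]
    rw [h _ (by simp)]

theorem acc_all (hP : P.Strict) (m : ℕ) : ∀ (k : ℕ), k + m = n + 1 →
    ∀ w : List (D × Fin (n + 1)), Acc P X (st P X k) w ↔
      ∃ u : Fin (n + 1) → List D, (∀ i : Fin (n + 1), k ≤ i.val → ∃ t, P.Der i t (X i) (u i)) ∧
        w = tl u k := by
  induction m with
  | zero =>
    intro k hk w
    have h1 : st P X k = none := by
      unfold st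
      rw [dif_neg (by omega)]
    rw [h1, acc_none]
    constructor
    · rintro rfl
      refine ⟨fun _ => [], fun i hi => ?_, (tl_top _ (by omega)).symm⟩
      have := i.isLt
      omega
    · rintro ⟨u, -, rfl⟩
      exact tl_top _ (by omega)
  | succ m ih =>
    intro k hk w
    have hk' : k < n + 1 := by omega
    have h1 : st P X k = some ⟨⟨k, hk'⟩, X ⟨k, hk'⟩⟩ := by
      unfold st
      rw [dif_pos hk']
    rw [h1, acc_blk X hP]
    constructor
    · rintro ⟨t, u0, r, h2, h3, h4⟩
      obtain ⟨u, h5, h6⟩ := (ih (k + 1) (by omega) r).1 h4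
      refine ⟨Function.update u ⟨k, hk'⟩ u0, fun i hi => ?_, ?_⟩
      · by_cases hik : i = ⟨k, hk'⟩
        · subst hik
          rw [Function.update_self]
          exact ⟨t, h2⟩
        · rw [Function.update_of_ne hik]
          apply h5
          have : i.val ≠ k := fun h => hik (Fin.ext h)
          omega
      · rw [tl_step _ hk', Function.update_self, h3, h6]
        congr 1
        apply tl_congr
        intro i hi
        rw [Function.update_of_ne]
        intro h
        rw [h] at hi
        simp at hi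
    · rintro ⟨u, h5, h6⟩
      obtain ⟨t, ht⟩ := h5 ⟨k, hk'⟩ le_rfl
      refine ⟨t, u ⟨k, hk'⟩, tl u (k + 1), ht, ?_, ?_⟩
      · rw [h6, tl_step _ hk']
      · exact (ih (k + 1) (by omega) _).2 ⟨u, fun i hi => h5 i (by omega), rfl⟩

theorem tl_zero_map (u : Fin (n + 1) → List D) : (tl u 0).map Prod.fst = (List.ofFn u).flatten := by
  unfold tl
  rw [List.drop_zero, List.map_flatten, List.map_ofFn]
  congr 2
  funext i
  simp [Function.comp_def]

end

section count

/-- number of occurrences -/
def cnt {E : Type} [DecidableEq E] (e : List E) (x : E) : ℕ := e.count x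

theorem sum_count_blk {D : Type} [Fintype D] [DecidableEq D] {n : ℕ}
    (e : List (D × Fin (n + 1))) (i : Fin (n + 1)) :
    ∑ d : D, cnt e (d, i) = e.countP (fun x => x.2 = i) := by
  induction e with
  | nil => simp [cnt]
  | cons x e ih =>
    simp only [cnt] at ih ⊢
    simp only [List.count_cons, List.countP_cons, Finset.sum_add_distrib, ih]
    congr 1
    obtain ⟨d, j⟩ := x
    by_cases hj : j = i
    · subst hj
      simp [Finset.sum_ite_eq]
    · simp [hj]

theorem countP_tl {D : Type} {n : ℕ} (u : Fin (n + 1) → List D) (i : Fin (n + 1)) :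
    (tl u 0).countP (fun x => x.2 = i) = (u i).length := by
  unfold tl
  rw [List.drop_zero, List.countP_flatten, List.map_ofFn, List.sum_ofFn,
    Finset.sum_eq_single i]
  · simp [List.countP_map, Function.comp_def]
  · intro j _ hj
    simp [List.countP_map, Function.comp_def, hj]
  · intro h
    exact absurd (Finset.mem_univ i) h

theorem count_flatMap_eq {A E : Type} [Fintype E] [DecidableEq E] [DecidableEq A]
    (g : E → List A) (e : List E) (a : A) :
    (e.flatMap g).count a = ∑ x : E, cnt e x * (g x).count a := by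
  unfold cnt
  induction e with
  | nil => simp
  | cons x e ih =>
    rw [List.flatMap_cons, List.count_append, ih]
    simp only [List.count_cons, add_mul, Finset.sum_add_distrib]
    rw [add_comm]
    congr 1
    simp

end count

end SMp

open SMp in
theorem t_SM (hPK : S_PK) : S_SM := by
  classical
  intro A _ _ n L hL
  obtain ⟨D, hD, K, P, h, hK, hP, rfl⟩ := hL
  obtain ⟨g, rfl⟩ := hK
  have := P.finN
  -- the context-free languages
  let KX : (∀ i, P.N i) → Language (D × Fin (n + 1)) := fun X =>
    {e | e.flatMap (fun x => [x.1]) ∈ g.language ∧ e ∈ (dfa P X).accepts}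
  have hKX : ∀ X, (KX X).IsContextFree := fun X =>
    Pool.Agent.Helper79.Trans.isContextFree_comap_inter (fun x => [x.1]) (dfa P X) g
  have hPar : ∀ X, IsSemilinearSet (Par (KX X)) := fun X =>
    hPK (D × Fin (n + 1)) inferInstance inferInstance (KX X) (hKX X)
  -- the block sums
  let f1 : (D × Fin (n + 1) → ℕ) →+ (Fin (n + 1) → ℕ) :=
    { toFun := fun v i => ∑ d, v (d, i)
      map_zero' := by
        funext i
        simp
      map_add' := by
        intro v w
        funext i
        simp [Finset.sum_add_distrib] }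
  let f2 : (D × Fin (n + 1) → ℕ) →+ (Fin (n + 1) → ℕ) :=
    { toFun := fun v _ => ∑ d, v (d, 0)
      map_zero' := by
        funext i
        simp
      map_add' := by
        intro v w
        funext i
        simp [Finset.sum_add_distrib] }
  have hC : IsSemilinearSet {v : D × Fin (n + 1) → ℕ | 0 + f1 v = 0 + f2 v} :=
    isSemilinearSet_setOfPred_eq 0 0 f1 f2
  let Φ : (D × Fin (n + 1) → ℕ) →+ (A → ℕ) :=
    { toFun := fun v a => ∑ x : D × Fin (n + 1), v x * (h x.1).count a
      map_zero' := by
        funext i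
        simp
      map_add' := by
        intro v w
        funext i
        simp [Finset.sum_add_distrib, add_mul] }
  have hmain : Par (Img g.language P.lang h) =
      ⋃ X ∈ P.start, Φ '' (Par (KX X) ∩ {v | 0 + f1 v = 0 + f2 v}) := by
    ext v
    simp only [Set.mem_iUnion]
    constructor
    · rintro ⟨w, ⟨x, hx, ⟨X, hX, t, u, hu, hxu⟩, hw⟩, hv⟩
      refine ⟨X, hX, fun y => cnt (tl u 0) y, ⟨⟨tl u 0, ⟨?_, ?_⟩, fun _ => rfl⟩, ?_⟩, ?_⟩
      · have h1 : (tl u 0).flatMap (fun x => [x.1]) = (tl u 0).map Prod.fst := by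
          rw [List.map_eq_flatMap]
        rw [h1, tl_zero_map, ← hxu]
        exact hx
      · rw [mem_dfa]
        exact (acc_all X hP (n + 1) 0 (by omega) _).2 ⟨u, fun i _ => ⟨t, hu i⟩, rfl⟩
      · show 0 + f1 _ = 0 + f2 _
        rw [zero_add, zero_add]
        funext i
        show ∑ d, cnt (tl u 0) (d, i) = ∑ d, cnt (tl u 0) (d, 0)
        rw [sum_count_blk, sum_count_blk, countP_tl, countP_tl, der_length hP (hu i),
          der_length hP (hu 0)]
      · funext a
        show ∑ y : D × Fin (n + 1), cnt (tl u 0) y * (h y.1).count a = v a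
        rw [hv a, hw, hxu, ← tl_zero_map, List.flatMap_map]
        exact (count_flatMap_eq (fun y : D × Fin (n + 1) => h y.1) (tl u 0) a).symm
    · rintro ⟨X, hX, v', ⟨⟨e, ⟨he1, he2⟩, hv'⟩, hC'⟩, rfl⟩
      replace hv' : ∀ y, v' y = cnt e y := hv'
      rw [mem_dfa] at he2
      obtain ⟨u, hu, rfl⟩ := (acc_all X hP (n + 1) 0 (by omega) _).1 he2
      have hlen : ∀ i, (u i).length = (u 0).length := by
        intro i
        have h1 : f1 v' = f2 v' := by
          have h0 : 0 + f1 v' = 0 + f2 v' := hC'
          rwa [zero_add, zero_add] at h0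
        have h2 : ∑ d, v' (d, i) = ∑ d, v' (d, 0) := congrFun h1 i
        simp only [hv'] at h2
        rwa [sum_count_blk, sum_count_blk, countP_tl, countP_tl] at h2
      refine ⟨((tl u 0).map Prod.fst).flatMap h, ⟨(tl u 0).map Prod.fst, ?_, ?_, rfl⟩, ?_⟩
      · have h1 : (tl u 0).flatMap (fun x => [x.1]) = (tl u 0).map Prod.fst := by
          rw [List.map_eq_flatMap]
        rw [← h1]
        exact he1
      · refine ⟨X, hX, (u 0).length, u, fun i => ?_, tl_zero_map u⟩
        obtain ⟨t, ht⟩ := hu i (Nat.zero_le _)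
        have h3 := der_length hP ht
        rw [hlen i] at h3
        rw [h3]
        exact ht
      · intro a
        show ∑ y : D × Fin (n + 1), v' y * (h y.1).count a = _
        rw [List.flatMap_map, count_flatMap_eq (fun y : D × Fin (n + 1) => h y.1) (tl u 0) a]
        simp only [hv']
  rw [hmain]
  exact IsSemilinearSet.biUnion (Set.toFinite _) fun X _ => ((hPar X).inter hC).image Φ

end Pool.Agent.R652.SR
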