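import Pool.Agent.R652.SR.Defs2

set_option autoImplicit false

/-!
# Piece XE: the words of length a power of two
-/

namespace Pool.Agent.R652.SR

namespace XEaux

theorem pow2_primrec : Primrec (fun k : ℕ => 2 ^ k) := by
  have h : Primrec (Nat.rec (motive := fun _ => ℕ) 1 (fun _ x => 2 * x)) :=
    Primrec.nat_rec₁ 1 (Primrec.nat_mul.comp (Primrec.const 2) Primrec.snd)
  refine h.of_eq fun n => ?_
  induction n with
  | zero => rfl
  | succ n ih =>
    rw [pow_succ]
    show 2 * (Nat.rec (motive := fun _ => ℕ) 1 (fun _ x => 2 * x) n) = 2 ^ n * 2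
    rw [ih]
    ring

theorem comp : ComputablePred (fun w : List Unit => w ∈ Pow2) := by
  have hR : PrimrecRel (fun (k m : ℕ) => m = 2 ^ k) :=
    Primrec.eq.comp Primrec.snd (pow2_primrec.comp Primrec.fst)
  have h1 := hR.exists_lt
  have h2 : PrimrecPred (fun w : List Unit => ∃ x < w.length, w.length = 2 ^ x) :=
    h1.comp Primrec.list_length Primrec.list_length
  refine (h2.of_eq fun w => ?_).computablePred
  constructor
  · rintro ⟨x, -, hx⟩
    exact ⟨x, hx⟩
  · rintro ⟨k, hk⟩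
    exact ⟨k, by rw [hk]; exact Nat.lt_two_pow_self, hk⟩

theorem nsl : ¬ IsSemilinearSet (Par Pow2) := by
  intro h
  have h1 := h.image (Pi.evalAddMonoidHom (fun _ : Unit => ℕ) ())
  have h2 : (Pi.evalAddMonoidHom (fun _ : Unit => ℕ) ()) '' (Par Pow2) = {m | ∃ k, m = 2 ^ k} := by
    ext m
    constructor
    · rintro ⟨v, ⟨w, ⟨k, hk⟩, hv⟩, rfl⟩
      refine ⟨k, ?_⟩
      show v () = 2 ^ k
      rw [hv (), ← hk]
      exact List.count_eq_length.mpr (fun b _ => rfl)
    · rintro ⟨k, rfl⟩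
      refine ⟨fun _ => 2 ^ k, ⟨List.replicate (2 ^ k) (), ⟨k, by simp⟩, ?_⟩, rfl⟩
      intro a
      simp
  rw [h2, Nat.isSemilinearSet_iff_ultimately_periodic] at h1
  obtain ⟨k, p, hp, hper⟩ := h1
  have hk : k ≤ 2 ^ (k + p) := by
    have : k + p < 2 ^ (k + p) := Nat.lt_two_pow_self
    omega
  have hpp : p < 2 ^ (k + p) := by
    have : k + p < 2 ^ (k + p) := Nat.lt_two_pow_self
    omega
  obtain ⟨m, hm⟩ := (hper (2 ^ (k + p)) hk).mp ⟨k + p, rfl⟩
  have h3 : k + p < m := by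
    rw [← Nat.pow_lt_pow_iff_right (a := 2) (by norm_num)]
    omega
  have h4 : m < k + p + 1 := by
    rw [← Nat.pow_lt_pow_iff_right (a := 2) (by norm_num), pow_succ]
    omega
  omega

end XEaux

theorem t_XE : S_XE := ⟨XEaux.comp, XEaux.nsl⟩

end Pool.Agent.R652.SR
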